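import Mathlib

/-!
Project FM: basic facts on the rank of matrices over a field.
-/

set_option autoImplicit false

namespace Pool.Agent.T6.H48.FM

open Matrix

section basic

variable {F : Type*} [Field F] {m n : Type*} [Fintype n]

theorem rank_add_le [Finite m] (A B : Matrix m n F) : (A + B).rank ≤ A.rank + B.rank := by
  unfold Matrix.rank
  have h : LinearMap.range (A + B).mulVecLin ≤
      LinearMap.range A.mulVecLin ⊔ LinearMap.range B.mulVecLin := by
    rintro _ ⟨x, rfl⟩
    rw [Matrix.mulVecLin_apply, Matrix.add_mulVec]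
    exact Submodule.add_mem_sup ⟨x, rfl⟩ ⟨x, rfl⟩
  exact (Submodule.finrank_mono h).trans (Submodule.finrank_add_le_finrank_add_finrank _ _)

theorem rank_neg (A : Matrix m n F) : (-A).rank = A.rank := by
  unfold Matrix.rank
  have h : LinearMap.range (-A).mulVecLin = LinearMap.range A.mulVecLin := by
    ext y
    constructor
    · rintro ⟨x, rfl⟩
      exact ⟨-x, by simp [Matrix.mulVec_neg]⟩
    · rintro ⟨x, rfl⟩
      exact ⟨-x, by simp [Matrix.mulVec_neg]⟩
  rw [h]

theorem rank_sub_le [Finite m] (A B : Matrix m n F) : (A - B).rank ≤ A.rank + B.rank := by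
  rw [sub_eq_add_neg]
  refine (rank_add_le _ _).trans ?_
  rw [rank_neg]

theorem rank_sum_le [Finite m] {ι : Type*} (s : Finset ι) (A : ι → Matrix m n F) :
    (∑ i ∈ s, A i).rank ≤ ∑ i ∈ s, (A i).rank := by
  classical
  induction s using Finset.induction_on with
  | empty => simp
  | insert i s hi ih =>
    rw [Finset.sum_insert hi, Finset.sum_insert hi]
    exact (rank_add_le _ _).trans (by omega)

end basic

section blocks

variable {F : Type*} [Field F]

/-- a block of a matrix -/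
theorem rank_blk_le {I J K K' : Type*} [Fintype J] [Fintype K'] (G : Matrix (I × K) (J × K') F)
    (i : I) (j : J) : (Matrix.of fun s r => G (i, s) (j, r)).rank ≤ G.rank :=
  Matrix.rank_submatrix_le G (fun s => (i, s)) (fun r => (j, r))

theorem rank_mul3_le {I J I' J' : Type} [Fintype I] [Fintype J] [Fintype J']
    (P : Matrix I' I F) (M : Matrix I J F) (Q : Matrix J J' F) : (P * M * Q).rank ≤ M.rank :=
  (Matrix.rank_mul_le_left _ _).trans (Matrix.rank_mul_le_right _ _)

/-- the rank of a block matrix is at most the sum of the ranks of its blocks -/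
theorem rank_blocks_le {I₁ I₂ J₁ J₂ : Type} [Fintype I₁] [Fintype I₂] [Fintype J₁] [Fintype J₂]
    (A : Matrix I₁ J₁ F) (B : Matrix I₁ J₂ F) (C : Matrix I₂ J₁ F) (D : Matrix I₂ J₂ F) :
    (fromBlocks A B C D).rank ≤ A.rank + B.rank + C.rank + D.rank := by
  classical
  have hA : fromBlocks A (0 : Matrix I₁ J₂ F) (0 : Matrix I₂ J₁ F) (0 : Matrix I₂ J₂ F) =
      fromRows (1 : Matrix I₁ I₁ F) (0 : Matrix I₂ I₁ F) * A *
        fromCols (1 : Matrix J₁ J₁ F) (0 : Matrix J₁ J₂ F) := by
    rw [fromRows_mul, fromRows_mul_fromCols]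
    simp
  have hB : fromBlocks (0 : Matrix I₁ J₁ F) B (0 : Matrix I₂ J₁ F) (0 : Matrix I₂ J₂ F) =
      fromRows (1 : Matrix I₁ I₁ F) (0 : Matrix I₂ I₁ F) * B *
        fromCols (0 : Matrix J₂ J₁ F) (1 : Matrix J₂ J₂ F) := by
    rw [fromRows_mul, fromRows_mul_fromCols]
    simp
  have hC : fromBlocks (0 : Matrix I₁ J₁ F) (0 : Matrix I₁ J₂ F) C (0 : Matrix I₂ J₂ F) =
      fromRows (0 : Matrix I₁ I₂ F) (1 : Matrix I₂ I₂ F) * C *
        fromCols (1 : Matrix J₁ J₁ F) (0 : Matrix J₁ J₂ F) := by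
    rw [fromRows_mul, fromRows_mul_fromCols]
    simp
  have hD : fromBlocks (0 : Matrix I₁ J₁ F) (0 : Matrix I₁ J₂ F) (0 : Matrix I₂ J₁ F) D =
      fromRows (0 : Matrix I₁ I₂ F) (1 : Matrix I₂ I₂ F) * D *
        fromCols (0 : Matrix J₂ J₁ F) (1 : Matrix J₂ J₂ F) := by
    rw [fromRows_mul, fromRows_mul_fromCols]
    simp
  have hsum : fromBlocks A B C D = fromBlocks A 0 0 0 + fromBlocks 0 B 0 0 + fromBlocks 0 0 C 0 +
      fromBlocks 0 0 0 D := by
    simp [fromBlocks_add]
  rw [hsum]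
  refine (rank_add_le _ _).trans (add_le_add ((rank_add_le _ _).trans
    (add_le_add ((rank_add_le _ _).trans (add_le_add ?_ ?_)) ?_)) ?_)
  · rw [hA]; exact rank_mul3_le _ _ _
  · rw [hB]; exact rank_mul3_le _ _ _
  · rw [hC]; exact rank_mul3_le _ _ _
  · rw [hD]; exact rank_mul3_le _ _ _

end blocks

end Pool.Agent.T6.H48.FM
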