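import Pool.Agent.T6.H48.FM.Defs

set_option autoImplicit false

namespace Pool.Agent.T6.H48.FM

open Matrix

namespace ModCON

/-- triples `(j, i, s)` -/
abbrev Tr : Type := (_ : ℕ) × (ℕ × ℕ)

/-- the basis -/
def KS (N : ℕ) : Finset Tr :=
  (Finset.range N).sigma fun j => Finset.range (Nat.fib (N - j)) ×ˢ Finset.range j

lemma mem_KS {N : ℕ} {x : Tr} :
    x ∈ KS N ↔ x.1 < N ∧ x.2.1 < Nat.fib (N - x.1) ∧ x.2.2 < x.1 := by
  simp [KS]

lemma card_KS (N : ℕ) : (KS N).card = bN N := by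
  simp [KS, bN, Finset.card_sigma]

/-- the multiplicities -/
def mm (N j : ℕ) : ℕ := Nat.fib (N - j)

lemma mm_rec {N j : ℕ} (h : j + 2 ≤ N) : mm N j = mm N (j + 1) + mm N (j + 2) := by
  unfold mm
  have h1 : N - j = (N - (j + 2)) + 2 := by omega
  have h2 : N - (j + 1) = (N - (j + 2)) + 1 := by omega
  rw [h1, h2, Nat.fib_add_two]
  ring

lemma mm_zero {N j : ℕ} (h : N ≤ j) : mm N j = 0 := by
  unfold mm
  rw [Nat.sub_eq_zero_of_le h]
  rfl

lemma mm_one {N j : ℕ} (h : j + 1 = N) : mm N j = 1 := by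
  unfold mm
  have : N - j = 1 := by omega
  rw [this]
  rfl

/-- `m` of `j` is at least `m` of `j + 1` plus `m` of `j + 2`. -/
lemma mm_ge (N j : ℕ) : mm N (j + 1) + mm N (j + 2) ≤ mm N j := by
  rcases le_or_gt (j + 2) N with h | h
  · exact (mm_rec h).ge
  · have h1 := @mm_zero N (j + 1) (by omega)
    have h2 := @mm_zero N (j + 2) (by omega)
    omega

lemma lt_of_mm {N j i : ℕ} (h : i < mm N j) : j < N := by
  by_contra hc
  have := @mm_zero N j (by omega)
  omega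

variable (F : Type*) [Field F] (N : ℕ)

/-- 0-1 matrices of partial maps -/
def mat (f : Tr → Option Tr) : Matrix (KS N) (KS N) F :=
  Matrix.of fun y x => if f x.1 = some y.1 then 1 else 0

variable {F N}

lemma mat_mul {g h k : Tr → Option Tr}
    (hh : ∀ x ∈ KS N, ∀ y, h x = some y → y ∈ KS N)
    (hk : ∀ x ∈ KS N, (h x).bind g = k x) : mat F N k = mat F N g * mat F N h := by
  ext z x
  rw [Matrix.mul_apply]
  simp only [mat, Matrix.of_apply]
  rw [← hk x.1 x.2]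
  rcases hx : h x.1 with _ | y0
  · simp
  · have hy := hh x.1 x.2 y0 hx
    rw [Finset.sum_eq_single (⟨y0, hy⟩ : KS N)]
    · simp
    · intro b _ hb
      have : y0 ≠ b.1 := by
        rintro rfl
        exact hb rfl
      simp [this]
    · intro hc
      exact absurd (Finset.mem_univ _) hc

lemma mat_zero : mat F N (fun _ => none) = 0 := by
  ext z x
  simp [mat]

lemma bind_ite' (c : Prop) [Decidable c] (a : Tr) (g : Tr → Option Tr) :
    (if c then some a else none : Option Tr).bind g = if c then g a else none := by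
  split_ifs <;> simp

/-! the maps -/

def fS (x : Tr) : Option Tr :=
  if x.2.2 + 1 < x.1 then some ⟨x.1, x.2.1, x.2.2 + 1⟩ else none

def fal (N : ℕ) (x : Tr) : Option Tr :=
  if x.2.1 < mm N (x.1 + 1) then some ⟨x.1 + 1, x.2.1, x.2.2 + 1⟩ else none

def fbe (N : ℕ) (x : Tr) : Option Tr :=
  if mm N (x.1 + 1) ≤ x.2.1 ∧ x.2.1 < mm N (x.1 + 1) + mm N (x.1 + 2) then
    some ⟨x.1 + 2, x.2.1 - mm N (x.1 + 1), x.2.2 + 2⟩ else none

def fa (N : ℕ) (x : Tr) : Option Tr :=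
  if x.2.1 < mm N (x.1 + 1) then some ⟨x.1 + 1, x.2.1, x.2.2⟩ else none

def fb1 (N : ℕ) (x : Tr) : Option Tr :=
  if mm N (x.1 + 1) ≤ x.2.1 ∧ x.2.1 < mm N (x.1 + 1) + mm N (x.1 + 2) then
    some ⟨x.1 + 2, x.2.1 - mm N (x.1 + 1), x.2.2 + 1⟩ else none

def fc (N : ℕ) (x : Tr) : Option Tr :=
  if mm N (x.1 + 1) ≤ x.2.1 ∧ x.2.1 < mm N (x.1 + 1) + mm N (x.1 + 2) then
    some ⟨x.1 + 2, x.2.1 - mm N (x.1 + 1), x.2.2⟩ else none

def fga (x : Tr) : Option Tr :=
  if x.2.2 + 1 < x.1 then some ⟨x.1 - 1, x.2.1, x.2.2⟩ else none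

def fde (N : ℕ) (x : Tr) : Option Tr :=
  if x.2.2 + 2 < x.1 then some ⟨x.1 - 2, x.2.1 + mm N (x.1 - 1), x.2.2⟩ else none

def fT (x : Tr) : Option Tr :=
  if x.2.2 + 2 < x.1 then some ⟨x.1, x.2.1, x.2.2 + 2⟩ else none

def fZ (N : ℕ) (x : Tr) : Option Tr :=
  if x.2.2 + 1 < x.1 ∧ x.2.1 < mm N (x.1 + 1) then some ⟨x.1 + 1, x.2.1, x.2.2 + 2⟩ else none

def fZ' (N : ℕ) (x : Tr) : Option Tr :=
  if x.2.2 + 1 < x.1 ∧ (mm N (x.1 + 1) ≤ x.2.1 ∧ x.2.1 < mm N (x.1 + 1) + mm N (x.1 + 2)) then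
    some ⟨x.1 + 2, x.2.1 - mm N (x.1 + 1), x.2.2 + 3⟩ else none

def fp (x : Tr) : Option Tr :=
  if 2 ≤ x.1 ∧ 1 ≤ x.2.2 then some ⟨x.1 - 1, x.2.1, x.2.2 - 1⟩ else none

def fq (N : ℕ) (x : Tr) : Option Tr :=
  if 3 ≤ x.1 ∧ 2 ≤ x.2.2 then some ⟨x.1 - 2, x.2.1 + mm N (x.1 - 1), x.2.2 - 2⟩ else none

def fu (N : ℕ) (x : Tr) : Option Tr :=
  if x.2.1 < mm N (x.1 + 1) then some x else none

def ft (N : ℕ) (x : Tr) : Option Tr :=
  if mm N (x.1 + 1) ≤ x.2.1 ∧ x.2.1 < mm N (x.1 + 1) + mm N (x.1 + 2) then some x else none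

/-! they preserve `KS N` -/

lemma mem' {j i s : ℕ} : (⟨j, i, s⟩ : Tr) ∈ KS N ↔ j < N ∧ i < mm N j ∧ s < j := by
  rw [mem_KS]
  rfl

lemma pS : ∀ x ∈ KS N, ∀ y, fS x = some y → y ∈ KS N := by
  rintro ⟨j, i, s⟩ hx y hy
  rw [mem'] at hx
  simp only [fS] at hy
  split_ifs at hy with h
  simp only [Option.some.injEq] at hy
  subst hy
  rw [mem']
  exact ⟨hx.1, hx.2.1, h⟩

lemma pal : ∀ x ∈ KS N, ∀ y, fal N x = some y → y ∈ KS N := by
  rintro ⟨j, i, s⟩ hx y hy
  rw [mem'] at hx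
  simp only [fal] at hy
  split_ifs at hy with h
  simp only [Option.some.injEq] at hy
  subst hy
  rw [mem']
  exact ⟨lt_of_mm h, h, by omega⟩

lemma pa : ∀ x ∈ KS N, ∀ y, fa N x = some y → y ∈ KS N := by
  rintro ⟨j, i, s⟩ hx y hy
  rw [mem'] at hx
  simp only [fa] at hy
  split_ifs at hy with h
  simp only [Option.some.injEq] at hy
  subst hy
  rw [mem']
  exact ⟨lt_of_mm h, h, by omega⟩

lemma pbe : ∀ x ∈ KS N, ∀ y, fbe N x = some y → y ∈ KS N := by
  rintro ⟨j, i, s⟩ hx y hy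
  rw [mem'] at hx
  simp only [fbe] at hy
  split_ifs at hy with h
  simp only [Option.some.injEq] at hy
  subst hy
  rw [mem']
  have h3 : i - mm N (j + 1) < mm N (j + 2) := by omega
  exact ⟨lt_of_mm h3, h3, by omega⟩

lemma pb1 : ∀ x ∈ KS N, ∀ y, fb1 N x = some y → y ∈ KS N := by
  rintro ⟨j, i, s⟩ hx y hy
  rw [mem'] at hx
  simp only [fb1] at hy
  split_ifs at hy with h
  simp only [Option.some.injEq] at hy
  subst hy
  rw [mem']
  have h3 : i - mm N (j + 1) < mm N (j + 2) := by omega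
  exact ⟨lt_of_mm h3, h3, by omega⟩

lemma pc : ∀ x ∈ KS N, ∀ y, fc N x = some y → y ∈ KS N := by
  rintro ⟨j, i, s⟩ hx y hy
  rw [mem'] at hx
  simp only [fc] at hy
  split_ifs at hy with h
  simp only [Option.some.injEq] at hy
  subst hy
  rw [mem']
  have h3 : i - mm N (j + 1) < mm N (j + 2) := by omega
  exact ⟨lt_of_mm h3, h3, by omega⟩

lemma pga : ∀ x ∈ KS N, ∀ y, fga x = some y → y ∈ KS N := by
  rintro ⟨j, i, s⟩ hx y hy
  rw [mem'] at hx
  simp only [fga] at hy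
  split_ifs at hy with h
  obtain ⟨k, rfl⟩ : ∃ k, j = k + 1 := ⟨j - 1, by omega⟩
  simp only [Option.some.injEq, Nat.add_sub_cancel] at hy
  subst hy
  rw [mem']
  have := mm_ge N k
  exact ⟨by omega, by omega, by omega⟩

lemma pde : ∀ x ∈ KS N, ∀ y, fde N x = some y → y ∈ KS N := by
  rintro ⟨j, i, s⟩ hx y hy
  rw [mem'] at hx
  simp only [fde] at hy
  split_ifs at hy with h
  obtain ⟨k, rfl⟩ : ∃ k, j = k + 2 := ⟨j - 2, by omega⟩
  have e1 : k + 2 - 1 = k + 1 := rfl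
  simp only [Option.some.injEq, Nat.add_sub_cancel, e1] at hy
  subst hy
  rw [mem']
  have := mm_ge N k
  exact ⟨by omega, by omega, by omega⟩

/-! the relations -/

lemma r0 : mat F N (fZ N) = mat F N (fal N) * mat F N fS := by
  refine mat_mul pS ?_
  rintro ⟨j, i, s⟩ hx
  rw [mem'] at hx
  simp only [fZ, fal, fS, bind_ite']
  split_ifs <;> first | rfl | (exfalso; omega)

lemma r1 : mat F N (fZ N) = mat F N fS * mat F N (fal N) := by
  refine mat_mul pal ?_
  rintro ⟨j, i, s⟩ hx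
  rw [mem'] at hx
  simp only [fZ, fal, fS, bind_ite']
  split_ifs <;> first | rfl | (exfalso; omega)

lemma r2 : mat F N (fZ' N) = mat F N (fbe N) * mat F N fS := by
  refine mat_mul pS ?_
  rintro ⟨j, i, s⟩ hx
  rw [mem'] at hx
  simp only [fZ', fbe, fS, bind_ite']
  split_ifs <;> first | rfl | (exfalso; omega)

lemma r3 : mat F N (fZ' N) = mat F N fS * mat F N (fbe N) := by
  refine mat_mul pbe ?_
  rintro ⟨j, i, s⟩ hx
  rw [mem'] at hx
  simp only [fZ', fbe, fS, bind_ite']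
  split_ifs <;> first | rfl | (exfalso; omega)

lemma r4 : mat F N (fal N) = mat F N fS * mat F N (fa N) := by
  refine mat_mul pa ?_
  rintro ⟨j, i, s⟩ hx
  rw [mem'] at hx
  simp only [fal, fa, fS, bind_ite']
  split_ifs <;> first | rfl | (exfalso; omega)

lemma r5 : mat F N (fbe N) = mat F N fS * mat F N (fb1 N) := by
  refine mat_mul pb1 ?_
  rintro ⟨j, i, s⟩ hx
  rw [mem'] at hx
  simp only [fbe, fb1, fS, bind_ite']
  split_ifs <;> first | rfl | (exfalso; omega)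

lemma r6 : mat F N (fb1 N) = mat F N fS * mat F N (fc N) := by
  refine mat_mul pc ?_
  rintro ⟨j, i, s⟩ hx
  rw [mem'] at hx
  simp only [fb1, fc, fS, bind_ite']
  split_ifs <;> first | rfl | (exfalso; omega)

lemma r7 : mat F N fS = mat F N (fal N) * mat F N fga := by
  refine mat_mul pga ?_
  rintro ⟨j, i, s⟩ hx
  rw [mem'] at hx
  obtain ⟨k, rfl⟩ : ∃ k, j = k + 1 := ⟨j - 1, by omega⟩
  simp only [fal, fga, fS, bind_ite', Nat.add_sub_cancel]
  split_ifs <;> first | rfl | (exfalso; omega)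

lemma r8 : mat F N (fun _ => none) = mat F N (fbe N) * mat F N fga := by
  refine mat_mul pga ?_
  rintro ⟨j, i, s⟩ hx
  rw [mem'] at hx
  obtain ⟨k, rfl⟩ : ∃ k, j = k + 1 := ⟨j - 1, by omega⟩
  simp only [fbe, fga, bind_ite', Nat.add_sub_cancel]
  split_ifs <;> first | rfl | (exfalso; omega)

lemma r9 : mat F N (fun _ => none) = mat F N (fal N) * mat F N (fde N) := by
  refine mat_mul pde ?_
  rintro ⟨j, i, s⟩ hx
  rw [mem'] at hx
  rcases lt_or_ge j 2 with h2 | h2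
  · simp only [fal, fde, bind_ite']
    split_ifs <;> first | rfl | (exfalso; omega)
  · obtain ⟨k, rfl⟩ : ∃ k, j = k + 2 := ⟨j - 2, by omega⟩
    have e1 : k + 2 - 1 = k + 1 := rfl
    simp only [fal, fde, bind_ite', Nat.add_sub_cancel, e1]
    split_ifs <;> first | rfl | (exfalso; omega)

lemma r10 : mat F N fT = mat F N (fbe N) * mat F N (fde N) := by
  refine mat_mul pde ?_
  rintro ⟨j, i, s⟩ hx
  rw [mem'] at hx
  rcases lt_or_ge j 2 with h2 | h2
  · simp only [fbe, fde, fT, bind_ite']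
    split_ifs <;> first | rfl | (exfalso; omega)
  · obtain ⟨k, rfl⟩ : ∃ k, j = k + 2 := ⟨j - 2, by omega⟩
    have e1 : k + 2 - 1 = k + 1 := rfl
    simp only [fbe, fde, fT, bind_ite', Nat.add_sub_cancel, e1]
    split_ifs <;> first | rfl | (exfalso; omega)

lemma r11 : mat F N fT = mat F N fS * mat F N fS := by
  refine mat_mul pS ?_
  rintro ⟨j, i, s⟩ hx
  rw [mem'] at hx
  simp only [fT, fS, bind_ite']
  split_ifs <;> first | rfl | (exfalso; omega)

lemma r12 : mat F N (fu N) = mat F N fp * mat F N (fal N) := by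
  refine mat_mul pal ?_
  rintro ⟨j, i, s⟩ hx
  rw [mem'] at hx
  simp only [fu, fal, fp, bind_ite', Nat.add_sub_cancel]
  split_ifs <;> first | rfl | (exfalso; omega)

lemma r13 : mat F N (ft N) = mat F N (fq N) * mat F N (fbe N) := by
  refine mat_mul pbe ?_
  rintro ⟨j, i, s⟩ hx
  rw [mem'] at hx
  have e1 : j + 2 - 1 = j + 1 := rfl
  simp only [ft, fbe, fq, bind_ite', Nat.add_sub_cancel, e1]
  split_ifs with h1 h2
  · have : i - mm N (j + 1) + mm N (j + 1) = i := by omega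
    rw [this]
  · exfalso; omega
  · rfl

/-- rank of a 0-1 diagonal-like matrix -/
lemma rank_S : (mat F N fS).rank ≤ bN (N - 1) := by
  classical
  set w : KS N → F := fun x => if x.1.2.2 + 1 < x.1.1 then 1 else 0 with hw
  have h1 : mat F N fS = mat F N fS * Matrix.diagonal w := by
    ext y x
    rw [Matrix.mul_diagonal]
    simp only [mat, Matrix.of_apply, hw, fS]
    by_cases h : x.1.2.2 + 1 < x.1.1
    · simp [h]
    · simp [h]
  rw [h1]
  refine (Matrix.rank_mul_le_right _ _).trans ?_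
  rw [Matrix.rank_diagonal, ← card_KS, ← Fintype.card_coe]
  refine Fintype.card_le_of_injective
    (fun x : {x // w x ≠ 0} => (⟨⟨x.1.1.1 - 1, x.1.1.2.1, x.1.1.2.2⟩, ?_⟩ : KS (N - 1))) ?_
  · have hx := x.2
    have hx2 := mem_KS.1 x.1.2
    have h3 : x.1.1.2.2 + 1 < x.1.1.1 := by
      by_contra hc
      exact hx (by simp [hw, hc])
    rw [mem_KS]
    refine ⟨?_, ?_, ?_⟩
    · show x.1.1.1 - 1 < N - 1
      omega
    · show x.1.1.2.1 < Nat.fib (N - 1 - (x.1.1.1 - 1))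
      have : N - 1 - (x.1.1.1 - 1) = N - x.1.1.1 := by omega
      rw [this]
      exact hx2.2.1
    · show x.1.1.2.2 < x.1.1.1 - 1
      omega
  · rintro ⟨⟨⟨j, i, s⟩, hx⟩, hw1⟩ ⟨⟨⟨j', i', s'⟩, hx'⟩, hw2⟩ h
    simp only [Subtype.mk.injEq, Sigma.mk.injEq, heq_eq_eq, Prod.mk.injEq] at h ⊢
    rw [mem'] at hx hx'
    obtain ⟨h1, h2, h3⟩ := h
    exact ⟨by omega, h2, h3⟩

lemma rank_ut : (mat F N (fu N) + mat F N (ft N) - 1).rank ≤ N := by
  classical
  set w : KS N → F := fun x => if x.1.1 + 1 = N then -1 else 0 with hw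
  have h1 : mat F N (fu N) + mat F N (ft N) - 1 = Matrix.diagonal w := by
    ext y x
    have hx := mem_KS.1 x.2
    change _ ∧ _ < mm N _ ∧ _ at hx
    have hfu : fu N x.1 = if x.1.2.1 < mm N (x.1.1 + 1) then some x.1 else none := rfl
    have hft : ft N x.1 = if mm N (x.1.1 + 1) ≤ x.1.2.1 ∧
      x.1.2.1 < mm N (x.1.1 + 1) + mm N (x.1.1 + 2) then some x.1 else none := rfl
    rw [Matrix.sub_apply, Matrix.add_apply, Matrix.diagonal_apply, Matrix.one_apply]
    simp only [mat, Matrix.of_apply, hfu, hft]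
    by_cases hyx : y = x
    · subst hyx
      rw [if_pos rfl, if_pos rfl]
      rcases lt_or_ge (y.1.1 + 1) N with h | h
      · have h2 := @mm_rec N y.1.1 (by omega)
        rcases lt_or_ge y.1.2.1 (mm N (y.1.1 + 1)) with h3 | h3
        · have h4 : ¬ (mm N (y.1.1 + 1) ≤ y.1.2.1 ∧
            y.1.2.1 < mm N (y.1.1 + 1) + mm N (y.1.1 + 2)) := by omega
          simp [h3, h.ne, hw]
        · have h4 : (mm N (y.1.1 + 1) ≤ y.1.2.1 ∧
            y.1.2.1 < mm N (y.1.1 + 1) + mm N (y.1.1 + 2)) := by omega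
          have h5 : ¬ y.1.2.1 < mm N (y.1.1 + 1) := by omega
          rw [if_neg h5, if_pos h4]
          simp [h.ne, hw]
      · have h6 : y.1.1 + 1 = N := by omega
        have h7 := @mm_zero N (y.1.1 + 1) (by omega)
        have h8 := @mm_zero N (y.1.1 + 2) (by omega)
        have h4 : ¬ (mm N (y.1.1 + 1) ≤ y.1.2.1 ∧
            y.1.2.1 < mm N (y.1.1 + 1) + mm N (y.1.1 + 2)) := by omega
        have h5 : ¬ y.1.2.1 < mm N (y.1.1 + 1) := by omega
        rw [if_neg h5, if_neg h4]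
        simp [h6, hw]
    · have h9 : x.1 ≠ y.1 := fun h => hyx (Subtype.ext h.symm)
      rw [if_neg hyx, if_neg hyx]
      have h10 : ∀ c : Prop, [Decidable c] → ¬ ((if c then some x.1 else none) = some y.1) := by
        intro c _ h
        split_ifs at h
        exact h9 (Option.some.inj h)
      rw [if_neg (h10 _), if_neg (h10 _)]
      simp
  rw [h1, Matrix.rank_diagonal]
  have h2 : Fintype.card {x // w x ≠ 0} ≤ Fintype.card (Fin N) := by
    refine Fintype.card_le_of_injective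
      (fun x : {x // w x ≠ 0} => (⟨x.1.1.2.2, ?_⟩ : Fin N)) ?_
    · have hx2 := mem_KS.1 x.1.2
      omega
    · rintro ⟨⟨⟨j, i, s⟩, hx⟩, hw1⟩ ⟨⟨⟨j', i', s'⟩, hx'⟩, hw2⟩ h
      simp only [Fin.mk.injEq] at h
      simp only [Subtype.mk.injEq, Sigma.mk.injEq, heq_eq_eq, Prod.mk.injEq]
      rw [mem'] at hx hx'
      have e1 : j + 1 = N := by
        by_contra hc
        exact hw1 (by simp [hw, hc])
      have e2 : j' + 1 = N := by
        by_contra hc
        exact hw2 (by simp [hw, hc])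
      have e3 := mm_one e1
      have e4 := mm_one e2
      exact ⟨by omega, by omega, h⟩
  simpa using h2

end ModCON

open ModCON in
theorem mCON (F : Type*) [Field F] : StmCON F := by
  intro N
  refine ⟨KS N, inferInstance, inferInstance,
    ![mat F N fS, mat F N (fal N), mat F N (fbe N), mat F N (fa N), mat F N (fb1 N),
      mat F N (fc N), mat F N fga, mat F N (fde N), mat F N fT, mat F N (fZ N), mat F N (fZ' N),
      mat F N fp, mat F N (fq N), mat F N (fu N), mat F N (ft N), 0], ?_, rfl, ?_, rank_ut,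
      rank_S⟩
  · rw [Fintype.card_coe, card_KS]
  · intro e
    fin_cases e
    · exact r0
    · exact r1
    · exact r2
    · exact r3
    · exact r4
    · exact r5
    · exact r6
    · exact r7
    · exact mat_zero.symm.trans r8
    · exact mat_zero.symm.trans r9
    · exact r10
    · exact r11
    · exact r12
    · exact r13

end Pool.Agent.T6.H48.FM
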