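import Pool.Agent.T6.H48.FM.Defs

set_option autoImplicit false

namespace Pool.Agent.T6.H48.FM

open Matrix

theorem mCOPY (F : Type*) [Field F] (h1 : StmGLO F) (h2 : StmSYS F) (h3 : StmSEQ) :
    StmCOPY F := by
  intro K _ _ B C D hB hC hD
  obtain ⟨hO, he, hl⟩ := h1 (Fin 16) (Fin 14) K 15 13 14 sysP B C D hB hC hD
  have hs := h2 K (blk B) (8 * (D - C * B).rank) hO he hl
  have h0 : (blk B 0 ^ 0).rank = Fintype.card K := by rw [pow_zero, Matrix.rank_one]
  have hf : ∀ n, (blk B 0 ^ n).rank ≤ (blk B 0 ^ 0).rank := by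
    intro n
    rw [h0]
    exact Matrix.rank_le_card_width _
  have := h3 (fun n => (blk B 0 ^ n).rank) (8 * (D - C * B).rank) hf hs
  simp only [h0, pow_one] at this
  push_cast at this
  linarith

end Pool.Agent.T6.H48.FM
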