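import Pool.Agent.R712.PM

/-!
Project FM (helper48), MP_3569d7_al, Q2: a partial matrix whose fractional minimal rank is irrational
(over every field). Definitions and statements of the modules.

Idea. If `S` is a matrix of size `b` and if there are matrices which show that the `F[S]`-modules `W`
(`= F^b`) and `S W ⊕ S² W` are isomorphic then `f_n = rank (S^n)` satisfies
`f_n = f_(n+1) + f_(n+2)`, and then `rank S = b / φ` (`φ` the golden ratio); there are no exact
solutions but there are approximate ones, and everything is stable under small rank perturbations.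
The matrix equations are put into a partial matrix: the identity `1` of size `3 L` and the Schur
complement `D - C B` of the rest.
-/

set_option autoImplicit false

namespace Pool.Agent.T6.H48.FM

open Matrix

/-- completions of `A ⊗ I_b`, where `b` is the number of elements of `K` -/
def IsCompl {F : Type*} [Zero F] {I J K : Type} [DecidableEq K] (A : I → J → Option F)
    (M : Matrix (I × K) (J × K) F) : Prop :=
  ∀ i j a, A i j = some a → ∀ s t, M (i, s) (j, t) = if s = t then a else 0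

/-! ### The gadget -/

/-- rows of the gadget: `τ v`, `ω v`, `π e`, `λ` -/
abbrev Row (V E : Type) : Type := V ⊕ V ⊕ E ⊕ Unit

/-- columns of the gadget: `a v`, `b v`, `g v`, `κ` -/
abbrev Col (V : Type) : Type := V ⊕ V ⊕ V ⊕ Unit

section gadget

variable (F : Type*) [Field F] {V E : Type} [DecidableEq V]

/-- `a v = (X_v, -1, 0)`, `b v = (0, -1, X'_v)`, `g v = (N_v, 0, 1)`, `κ = (0, 1, -1)`;
`X_O = 0`. -/
def gB (O : V) (c : Fin 3) : Col V → Option F
  | Sum.inl v => if c = 0 then (if v = O then some 0 else none)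
      else if c = 1 then some (-1) else some 0
  | Sum.inr (Sum.inl _) => if c = 0 then some 0 else if c = 1 then some (-1) else none
  | Sum.inr (Sum.inr (Sum.inl _)) => if c = 0 then none else if c = 1 then some 0 else some 1
  | Sum.inr (Sum.inr (Sum.inr _)) => if c = 0 then some 0 else if c = 1 then some 1 else some (-1)

/-- `τ v = (1, Y_v, 1)`, `ω v = (1, U_v, V_v)`, `π e = (1, W_e, Y_e)`, `λ = (1, W, -1)` -/
def gC : Row V E → Fin 3 → Option F
  | Sum.inl _, c => if c = 1 then none else some 1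
  | Sum.inr (Sum.inl _), c => if c = 0 then some 1 else none
  | Sum.inr (Sum.inr (Sum.inl _)), c => if c = 0 then some 1 else none
  | Sum.inr (Sum.inr (Sum.inr _)), c => if c = 0 then some 1 else if c = 1 then none else some (-1)

/-- The constraints. In `G = D - C B`: `(τ v, a v)`: `-(X_v - Y_v)`; `(τ v, b v)`: `-(X'_v - Y_v)`;
`(ω v, a v)`: `-(X_v - U_v)`; `(ω v, g v)`: `-(N_v + V_v)`; `(ω v, κ)`: `-(U_v - V_v)`; for
`P e = (i, j, l)`: `(π e, a i)`: `-(X_i - W_e)`; `(π e, b l)`: `-(Y_e X'_l - W_e)`; `(π e, g j)`: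
`-(N_j + Y_e)`; `(λ, a u)`: `1 - (X_u - W)`; `(λ, b t)`: `W + X'_t`. -/
def gD (P : E → V × V × V) (u t : V) : Row V E → Col V → Option F
  | Sum.inl v, Sum.inl w => if v = w then some 0 else none
  | Sum.inl v, Sum.inr (Sum.inl w) => if v = w then some 0 else none
  | Sum.inr (Sum.inl v), Sum.inl w => if v = w then some 0 else none
  | Sum.inr (Sum.inl v), Sum.inr (Sum.inr (Sum.inl w)) => if v = w then some 0 else none
  | Sum.inr (Sum.inl _), Sum.inr (Sum.inr (Sum.inr _)) => some 0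
  | Sum.inr (Sum.inr (Sum.inl e)), Sum.inl w => if w = (P e).1 then some 0 else none
  | Sum.inr (Sum.inr (Sum.inl e)), Sum.inr (Sum.inl w) => if w = (P e).2.2 then some 0 else none
  | Sum.inr (Sum.inr (Sum.inl e)), Sum.inr (Sum.inr (Sum.inl w)) =>
      if w = (P e).2.1 then some 0 else none
  | Sum.inr (Sum.inr (Sum.inr _)), Sum.inl w => if w = u then some 1 else none
  | Sum.inr (Sum.inr (Sum.inr _)), Sum.inr (Sum.inl w) => if w = t then some 0 else none
  | _, _ => none

end gadget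

/-- the block `X_v` of `B` -/
def blk {F : Type*} {V K : Type} (B : Matrix (Fin 3 × K) (Col V × K) F) (v : V) : Matrix K K F :=
  Matrix.of fun s r => B (0, s) (Sum.inl v, r)

/-! ### The system

Variables: `0: S, 1: α, 2: β, 3: a, 4: β₁, 5: c, 6: γ, 7: δ, 8: T, 9: Z, 10: Z', 11: p, 12: q,
13: u, 14: t, 15: O = 0`. -/

/-- the products `x_i = x_j x_l`: `Z = α S`, `Z = S α`, `Z' = β S`, `Z' = S β`, `α = S a`,
`β = S β₁`, `β₁ = S c`, `S = α γ`, `0 = β γ`, `0 = α δ`, `T = β δ`, `T = S S`, `u = p α`, `t = q β`;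
moreover `u + t = 1` -/
def sysP : Fin 14 → Fin 16 × Fin 16 × Fin 16 :=
  ![(9, 1, 0), (9, 0, 1), (10, 2, 0), (10, 0, 2), (1, 0, 3), (2, 0, 4), (4, 0, 5), (0, 1, 6),
    (15, 2, 6), (15, 1, 7), (8, 2, 7), (8, 0, 0), (13, 11, 1), (14, 12, 2)]

/-! ### The partial matrix -/

/-- rows of the partial matrix: coordinates, rows of the gadgets, the objective row -/
abbrev BI (L : ℕ) : Type := (Fin L × Fin 3) ⊕ ((Fin L × Row (Fin 16) (Fin 14)) ⊕ Unit)

/-- columns of the partial matrix: coordinates, columns of the gadgets -/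
abbrev BJ (L : ℕ) : Type := (Fin L × Fin 3) ⊕ (Fin L × Col (Fin 16))

/-- the partial matrix -/
def big (F : Type*) [Field F] (L : ℕ) : BI L → BJ L → Option F
  | Sum.inl x, Sum.inl y => some (if x = y then 1 else 0)
  | Sum.inl x, Sum.inr y => if x.1 = y.1 then gB F 15 x.2 y.2 else some 0
  | Sum.inr (Sum.inl x), Sum.inl y => if x.1 = y.1 then gC F x.2 y.2 else some 0
  | Sum.inr (Sum.inl x), Sum.inr y => if x.1 = y.1 then gD F sysP 13 14 x.2 y.2 else some 0
  | Sum.inr (Sum.inr _), Sum.inl y => some (if y.2 = 0 then 1 else 0)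
  | Sum.inr (Sum.inr _), Sum.inr y => if y.2 = Sum.inl 0 then some 0 else none

/-! ### Statements: linear algebra -/

/-- SCH -/
def StmSCH (F : Type*) [Field F] : Prop := ∀ (R I J : Type) [Fintype R] [DecidableEq R] [Fintype I]
  [Fintype J] (B : Matrix R J F) (C : Matrix I R F) (D : Matrix I J F),
  (fromBlocks 1 B C D).rank = Fintype.card R + (D - C * B).rank

/-- TRI: block triangular and block diagonal matrices -/
def StmTRI (F : Type*) [Field F] : Prop :=
  (∀ (I₁ I₂ J₁ J₂ : Type) [Fintype I₁] [Fintype I₂] [Fintype J₁] [Fintype J₂]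
    (A : Matrix I₁ J₁ F) (B : Matrix I₁ J₂ F) (D : Matrix I₂ J₂ F),
    A.rank + D.rank ≤ (fromBlocks A B 0 D).rank) ∧
  (∀ (ι I J : Type) [Fintype ι] [DecidableEq ι] [Fintype I] [Fintype J]
    (G : Matrix (ι × I) (ι × J) F), (∀ i j, i ≠ j → ∀ x y, G (i, x) (j, y) = 0) →
    G.rank = ∑ i, (Matrix.of fun x y => G (i, x) (i, y)).rank)

/-! ### Statements: the gadget -/

/-- GLO: lower bound for the gadget -/
def StmGLO (F : Type*) [Field F] : Prop := ∀ (V E K : Type) [Fintype V] [DecidableEq V] [Fintype E]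
  [Fintype K] [DecidableEq K] (O u t : V) (P : E → V × V × V)
  (B : Matrix (Fin 3 × K) (Col V × K) F) (C : Matrix (Row V E × K) (Fin 3 × K) F)
  (D : Matrix (Row V E × K) (Col V × K) F),
  IsCompl (gB F O) B → IsCompl (gC F) C → IsCompl (gD F P u t) D →
  blk B O = 0 ∧
  (∀ e, (blk B (P e).1 - blk B (P e).2.1 * blk B (P e).2.2).rank ≤ 8 * (D - C * B).rank) ∧
  (blk B u + blk B t - 1).rank ≤ 8 * (D - C * B).rank

/-- GUP: completions of the gadget -/
def StmGUP (F : Type*) [Field F] : Prop := ∀ (V E K : Type) [Fintype V] [DecidableEq V] [Fintype E]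
  [DecidableEq E] [Fintype K] [DecidableEq K] (O u t : V) (P : E → V × V × V)
  (X : V → Matrix K K F), X O = 0 →
  ∃ (B : Matrix (Fin 3 × K) (Col V × K) F) (C : Matrix (Row V E × K) (Fin 3 × K) F)
    (D : Matrix (Row V E × K) (Col V × K) F),
  IsCompl (gB F O) B ∧ IsCompl (gC F) C ∧ IsCompl (gD F P u t) D ∧ (∀ v, blk B v = X v) ∧
  (D - C * B).rank ≤ ∑ e, (X (P e).1 - X (P e).2.1 * X (P e).2.2).rank + (X u + X t - 1).rank

/-! ### Statements: the system -/

/-- SYS: the ranks of the powers of `S` -/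
def StmSYS (F : Type*) [Field F] : Prop := ∀ (K : Type) [Fintype K] [DecidableEq K]
  (X : Fin 16 → Matrix K K F) (ε : ℕ), X 15 = 0 →
  (∀ e, (X (sysP e).1 - X (sysP e).2.1 * X (sysP e).2.2).rank ≤ ε) →
  (X 13 + X 14 - 1).rank ≤ ε →
  ∀ n, (X 0 ^ n).rank ≤ (X 0 ^ (n + 1)).rank + (X 0 ^ (n + 2)).rank + 8 * (n + 1) * ε ∧
    (X 0 ^ (n + 1)).rank + (X 0 ^ (n + 2)).rank ≤ (X 0 ^ n).rank + 8 * (n + 1) * ε

/-- SEQ: Fibonacci recursion with errors -/
def StmSEQ : Prop := ∀ (f : ℕ → ℕ) (ε : ℕ), (∀ n, f n ≤ f 0) →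
  (∀ n, f n ≤ f (n + 1) + f (n + 2) + 8 * (n + 1) * ε ∧
    f (n + 1) + f (n + 2) ≤ f n + 8 * (n + 1) * ε) →
  (f 0 : ℝ) ≤ Real.goldenRatio * f 1 + 64 * ε

/-- COPY: the inequality for one gadget -/
def StmCOPY (F : Type*) [Field F] : Prop := ∀ (K : Type) [Fintype K] [DecidableEq K]
  (B : Matrix (Fin 3 × K) (Col (Fin 16) × K) F)
  (C : Matrix (Row (Fin 16) (Fin 14) × K) (Fin 3 × K) F)
  (D : Matrix (Row (Fin 16) (Fin 14) × K) (Col (Fin 16) × K) F),
  IsCompl (gB F 15) B → IsCompl (gC F) C → IsCompl (gD F sysP 13 14) D →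
  (Fintype.card K : ℝ) ≤ Real.goldenRatio * (blk B 0).rank + 512 * (D - C * B).rank

/-- LOW: the lower bound -/
def StmLOW (F : Type*) [Field F] : Prop := ∀ (L : ℕ), 514 ≤ L → ∀ (K : Type) [Fintype K]
  [DecidableEq K] (M : Matrix (BI L × K) (BJ L × K) F), IsCompl (big F L) M →
  (3 * L + Real.goldenRatio⁻¹) * Fintype.card K ≤ M.rank

/-- UPP: completions -/
def StmUPP (F : Type*) [Field F] : Prop := ∀ (L : ℕ) (K : Type) [Fintype K] [DecidableEq K]
  (X : Fin 16 → Matrix K K F), X 15 = 0 →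
  ∃ M : Matrix (BI L × K) (BJ L × K) F, IsCompl (big F L) M ∧
    M.rank ≤ 3 * L * Fintype.card K + (X 0).rank +
      L * (∑ e, (X (sysP e).1 - X (sysP e).2.1 * X (sysP e).2.2).rank + (X 13 + X 14 - 1).rank)

/-! ### Statements: the approximate solutions -/

/-- the size of the approximate solution: it is a sum of `Nat.fib (N - j)` Jordan blocks of size `j`,
`j < N` -/
def bN (N : ℕ) : ℕ := ∑ j ∈ Finset.range N, Nat.fib (N - j) * j

/-- CON: approximate solutions -/
def StmCON (F : Type*) [Field F] : Prop := ∀ N : ℕ, ∃ (K : Type) (_ : Fintype K)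
  (_ : DecidableEq K) (X : Fin 16 → Matrix K K F), Fintype.card K = bN N ∧ X 15 = 0 ∧
  (∀ e, X (sysP e).1 = X (sysP e).2.1 * X (sysP e).2.2) ∧ (X 13 + X 14 - 1).rank ≤ N ∧
  (X 0).rank ≤ bN (N - 1)

/-- LIM -/
def StmLIM : Prop := ∀ C η : ℝ, 0 < η → ∃ N : ℕ, 0 < bN N ∧
  (bN (N - 1) : ℝ) + C * N ≤ (Real.goldenRatio⁻¹ + η) * bN N

/-- FINAL -/
def StmFIN (F : Type*) [Field F] : Prop := ∃ (m n k : ℕ) (A : Fin m → Fin n → Option F),
  Pool.Agent.R712.PM.fmr A = k + (√5 - 1) / 2

end Pool.Agent.T6.H48.FM
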