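import Pool.Agent.T6.H48.FM.Defs

set_option autoImplicit false

/-! Project FM, module FIN. -/

namespace Pool.Agent.T6.H48.FM.ModFIN

open Matrix Pool.Agent.R712.PM

universe u

variable {F : Type u} [Field F]

theorem exists_compl {ι κ : Type} (A : ι → κ → Option F) : ∃ B : Matrix ι κ F, IsCompletion A B := by
  refine ⟨Matrix.of fun i j => (A i j).getD 0, ?_⟩
  intro i j a h
  simp [h]

theorem mr_mem {ι κ : Type} [Fintype κ] (A : ι → κ → Option F) :
    ∃ B : Matrix ι κ F, IsCompletion A B ∧ B.rank = mr A := by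
  have : mr A ∈ {r | ∃ B : Matrix ι κ F, IsCompletion A B ∧ B.rank = r} := by
    apply Nat.sInf_mem
    obtain ⟨B, hB⟩ := exists_compl A
    exact ⟨_, B, hB, rfl⟩
  exact this

theorem mr_le {ι κ : Type} [Fintype κ] (A : ι → κ → Option F) (B : Matrix ι κ F)
    (hB : IsCompletion A B) : mr A ≤ B.rank := Nat.sInf_le ⟨B, hB, rfl⟩

theorem inv_phi : Real.goldenRatio⁻¹ = (√5 - 1) / 2 := by
  rw [Real.inv_goldenRatio]
  unfold Real.goldenConj
  ring

end Pool.Agent.T6.H48.FM.ModFIN

namespace Pool.Agent.T6.H48.FM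

open Matrix Pool.Agent.R712.PM ModFIN

theorem mFIN (F : Type*) [Field F] (h1 : StmLOW F) (h2 : StmUPP F) (h3 : StmCON F)
    (h4 : StmLIM) : StmFIN F := by
  let eI := Fintype.equivFin (BI 514)
  let eJ := Fintype.equivFin (BJ 514)
  refine ⟨Fintype.card (BI 514), Fintype.card (BJ 514), 1542,
    fun i j => big F 514 (eI.symm i) (eJ.symm j), ?_⟩
  set A : Fin (Fintype.card (BI 514)) → Fin (Fintype.card (BJ 514)) → Option F :=
    fun i j => big F 514 (eI.symm i) (eJ.symm j) with hA
  rw [← inv_phi]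
  apply le_antisymm
  · apply le_of_forall_pos_le_add
    intro η hη
    obtain ⟨N, hN, hlim⟩ := h4 514 η hη
    obtain ⟨K, iF, iD, X, hK, hX, hP, hO, hS⟩ := h3 N
    obtain ⟨M, hM, hr⟩ := h2 514 K X hX
    let eK : K ≃ Fin (bN N) := Fintype.equivFinOfCardEq hK
    let B : Matrix (Fin (Fintype.card (BI 514)) × Fin (bN N))
        (Fin (Fintype.card (BJ 514)) × Fin (bN N)) F :=
      M.submatrix (Equiv.prodCongr eI.symm eK.symm) (Equiv.prodCongr eJ.symm eK.symm)
    have hB : IsCompletion (tens A (bN N)) B := by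
      rintro ⟨i, s⟩ ⟨j, t⟩ a h
      simp only [tens, Option.map_eq_some_iff] at h
      obtain ⟨a0, ha0, rfl⟩ := h
      have := hM (eI.symm i) (eJ.symm j) a0 ha0 (eK.symm s) (eK.symm t)
      simp only [B, submatrix_apply, Equiv.prodCongr_apply, Prod.map_apply]
      rw [this]
      by_cases hst : s = t
      · simp [hst]
      · simp [hst]
    have hBr : B.rank = M.rank := rank_submatrix _ _ _
    have h5 := mr_le _ _ hB
    rw [hBr] at h5
    have h6 : ∀ e, (X (sysP e).1 - X (sysP e).2.1 * X (sysP e).2.2).rank = 0 := by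
      intro e
      rw [hP e, sub_self, rank_zero]
    simp only [h6, Finset.sum_const_zero, zero_add, hK] at hr
    have h7 : mr (tens A (bN N)) ≤ 3 * 514 * bN N + bN (N - 1) + 514 * N := by
      calc mr (tens A (bN N)) ≤ M.rank := h5
        _ ≤ _ := hr
        _ ≤ _ := by gcongr
    have h7' : (mr (tens A (bN N)) : ℝ) ≤ 3 * 514 * bN N + bN (N - 1) + 514 * N := by
      exact_mod_cast h7
    have hb : (0 : ℝ) < bN N := by exact_mod_cast hN
    have h8 : fmr A ≤ (mr (tens A (bN N)) : ℝ) / (bN N : ℝ) := by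
      unfold fmr
      refine ciInf_le ⟨0, ?_⟩ (⟨bN N, hN⟩ : {b : ℕ // 1 ≤ b})
      rintro _ ⟨b, rfl⟩
      positivity
    refine h8.trans ?_
    rw [div_le_iff₀ hb]
    push_cast
    nlinarith
  · unfold fmr
    have : Nonempty {b : ℕ // 1 ≤ b} := ⟨⟨1, le_rfl⟩⟩
    apply le_ciInf
    rintro ⟨b, hb⟩
    have hb' : (0 : ℝ) < b := by exact_mod_cast hb
    rw [le_div_iff₀ hb']
    obtain ⟨B, hB, hBr⟩ := mr_mem (tens A b)
    rw [← hBr]
    let M : Matrix (BI 514 × Fin b) (BJ 514 × Fin b) F :=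
      B.submatrix (Equiv.prodCongr eI (Equiv.refl _)) (Equiv.prodCongr eJ (Equiv.refl _))
    have hM : IsCompl (big F 514) M := by
      intro i j a h s t
      have h5 : tens A b (eI i, s) (eJ j, t) = some (if s = t then a else 0) := by
        simp [tens, hA, h]
      exact hB _ _ _ h5
    have hMr : M.rank = B.rank := rank_submatrix _ _ _
    have h6 := h1 514 le_rfl (Fin b) M hM
    rw [hMr, Fintype.card_fin] at h6
    push_cast at h6 ⊢
    have e : (3 * 514 : ℝ) = 1542 := by norm_num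
    rw [e] at h6
    exact h6

end Pool.Agent.T6.H48.FM
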