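import Pool.Agent.T6.H48.FM.Defs

/-!
Project FM, module GLO (helper54): lower bound for the gadget.
-/

set_option autoImplicit false

namespace Pool.Agent.T6.H48.FM

open Matrix

namespace ModGLO

section

variable {F : Type*} [Field F] {I J K : Type} [Fintype K] [DecidableEq K]

/-- a block -/
def bl (M : Matrix (I × K) (J × K) F) (i : I) (j : J) : Matrix K K F :=
  M.submatrix (Prod.mk i) (Prod.mk j)

omit [DecidableEq K] in
theorem bl_rank [Fintype J] (M : Matrix (I × K) (J × K) F) (i : I) (j : J) :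
    (bl M i j).rank ≤ M.rank := Matrix.rank_submatrix_le _ _ _

omit [Fintype K] in
theorem bl_of {A : I → J → Option F} {M : Matrix (I × K) (J × K) F} (h : IsCompl A M) {i : I}
    {j : J} {a : F} (e : A i j = some a) : bl M i j = a • (1 : Matrix K K F) := by
  ext s t
  rw [bl, Matrix.submatrix_apply, h i j a e s t, Matrix.smul_apply, Matrix.one_apply]
  split_ifs <;> simp

omit [DecidableEq K] in
theorem bl_schur {I' : Type} (B : Matrix (Fin 3 × K) (J × K) F) (C : Matrix (I' × K) (Fin 3 × K) F)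
    (D : Matrix (I' × K) (J × K) F) (i : I') (j : J) :
    bl (D - C * B) i j = bl D i j - (bl C i 0 * bl B 0 j + bl C i 1 * bl B 1 j +
      bl C i 2 * bl B 2 j) := by
  ext s t
  simp only [bl, Matrix.submatrix_apply, Matrix.sub_apply, Matrix.add_apply, Matrix.mul_apply,
    Fintype.sum_prod_type, Fin.sum_univ_three]

omit [DecidableEq K] in
theorem radd (A B : Matrix K K F) : (A + B).rank ≤ A.rank + B.rank := by
  unfold Matrix.rank
  rw [Matrix.mulVecLin_add]
  refine (Submodule.finrank_mono (t := LinearMap.range A.mulVecLin ⊔ LinearMap.range B.mulVecLin)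
    ?_).trans (Submodule.finrank_add_le_finrank_add_finrank _ _)
  rintro _ ⟨x, rfl⟩
  exact Submodule.add_mem_sup ⟨x, rfl⟩ ⟨x, rfl⟩

theorem rneg (A : Matrix K K F) : (-A).rank ≤ A.rank := by
  have : -A = A * (-1) := by simp
  rw [this]
  exact rank_mul_le_left _ _

theorem rsub (A B : Matrix K K F) : (A - B).rank ≤ A.rank + B.rank := by
  rw [sub_eq_add_neg]
  exact (radd _ _).trans (Nat.add_le_add_left (rneg B) _)

end

end ModGLO

open ModGLO in
theorem mGLO (F : Type*) [Field F] : StmGLO F := by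
  intro V E K _ _ _ _ _ O u t P B C D hB hC hD
  set e : ℕ := (D - C * B).rank with he
  have hG : ∀ i j, (bl (D - C * B) i j).rank ≤ e := fun i j => bl_rank _ i j
  -- the blocks of B
  have bX : ∀ v, bl B 0 (Sum.inl v) = blk B v := fun v => rfl
  have b1 : ∀ v, bl B 1 (Sum.inl v) = -1 := fun v => by
    rw [bl_of hB (a := -1) (by simp [gB])]; simp
  have b2 : ∀ v, bl B 2 (Sum.inl v) = 0 := fun v => by
    rw [bl_of hB (a := 0) (by simp [gB])]; simp
  have b3 : ∀ v, bl B 0 (Sum.inr (Sum.inl v)) = 0 := fun v => by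
    rw [bl_of hB (a := 0) (by simp [gB])]; simp
  have b4 : ∀ v, bl B 1 (Sum.inr (Sum.inl v)) = -1 := fun v => by
    rw [bl_of hB (a := -1) (by simp [gB])]; simp
  have b5 : ∀ v, bl B 1 (Sum.inr (Sum.inr (Sum.inl v))) = 0 := fun v => by
    rw [bl_of hB (a := 0) (by simp [gB])]; simp
  have b6 : ∀ v, bl B 2 (Sum.inr (Sum.inr (Sum.inl v))) = 1 := fun v => by
    rw [bl_of hB (a := 1) (by simp [gB])]; simp
  have b7 : bl B 0 (Sum.inr (Sum.inr (Sum.inr ()))) = 0 := by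
    rw [bl_of hB (a := 0) (by simp [gB])]; simp
  have b8 : bl B 1 (Sum.inr (Sum.inr (Sum.inr ()))) = 1 := by
    rw [bl_of hB (a := 1) (by simp [gB])]; simp
  have b9 : bl B 2 (Sum.inr (Sum.inr (Sum.inr ()))) = -1 := by
    rw [bl_of hB (a := -1) (by simp [gB])]; simp
  -- the blocks of C
  have c1 : ∀ v, bl C (Sum.inl v) 0 = 1 := fun v => by
    rw [bl_of hC (a := 1) (by simp [gC])]; simp
  have c2 : ∀ v, bl C (Sum.inl v) 2 = 1 := fun v => by
    rw [bl_of hC (a := 1) (by simp [gC])]; simp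
  have c3 : ∀ v, bl C (Sum.inr (Sum.inl v)) 0 = 1 := fun v => by
    rw [bl_of hC (a := 1) (by simp [gC])]; simp
  have c4 : ∀ v, bl C (Sum.inr (Sum.inr (Sum.inl v))) 0 = 1 := fun v => by
    rw [bl_of hC (a := 1) (by simp [gC])]; simp
  have c5 : bl C (Sum.inr (Sum.inr (Sum.inr ()))) 0 = 1 := by
    rw [bl_of hC (a := 1) (by simp [gC])]; simp
  have c6 : bl C (Sum.inr (Sum.inr (Sum.inr ()))) 2 = -1 := by
    rw [bl_of hC (a := -1) (by simp [gC])]; simp
  -- the blocks of D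
  have d1 : ∀ v, bl D (Sum.inl v) (Sum.inl v) = 0 := fun v => by
    rw [bl_of hD (a := 0) (by simp [gD])]; simp
  have d2 : ∀ v, bl D (Sum.inl v) (Sum.inr (Sum.inl v)) = 0 := fun v => by
    rw [bl_of hD (a := 0) (by simp [gD])]; simp
  have d3 : ∀ v, bl D (Sum.inr (Sum.inl v)) (Sum.inl v) = 0 := fun v => by
    rw [bl_of hD (a := 0) (by simp [gD])]; simp
  have d4 : ∀ v, bl D (Sum.inr (Sum.inl v)) (Sum.inr (Sum.inr (Sum.inl v))) = 0 := fun v => by
    rw [bl_of hD (a := 0) (by simp [gD])]; simp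
  have d5 : ∀ v, bl D (Sum.inr (Sum.inl v)) (Sum.inr (Sum.inr (Sum.inr ()))) = 0 := fun v => by
    rw [bl_of hD (a := 0) (by simp [gD])]; simp
  have d6 : ∀ i, bl D (Sum.inr (Sum.inr (Sum.inl i))) (Sum.inl (P i).1) = 0 := fun i => by
    rw [bl_of hD (a := 0) (by simp [gD])]; simp
  have d7 : ∀ i, bl D (Sum.inr (Sum.inr (Sum.inl i))) (Sum.inr (Sum.inl (P i).2.2)) = 0 :=
    fun i => by rw [bl_of hD (a := 0) (by simp [gD])]; simp
  have d8 : ∀ i, bl D (Sum.inr (Sum.inr (Sum.inl i)))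
      (Sum.inr (Sum.inr (Sum.inl (P i).2.1))) = 0 :=
    fun i => by rw [bl_of hD (a := 0) (by simp [gD])]; simp
  have d9 : bl D (Sum.inr (Sum.inr (Sum.inr ()))) (Sum.inl u) = 1 := by
    rw [bl_of hD (a := 1) (by simp [gD])]; simp
  have d0 : bl D (Sum.inr (Sum.inr (Sum.inr ()))) (Sum.inr (Sum.inl t)) = 0 := by
    rw [bl_of hD (a := 0) (by simp [gD])]; simp
  -- the blocks of G
  have g3 : ∀ v, bl (D - C * B) (Sum.inl v) (Sum.inl v) = bl C (Sum.inl v) 1 - blk B v := by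
    intro v
    rw [bl_schur, d1, c1, c2, bX, b1, b2]; noncomm_ring
  have g4 : ∀ v, bl (D - C * B) (Sum.inl v) (Sum.inr (Sum.inl v)) =
      bl C (Sum.inl v) 1 - bl B 2 (Sum.inr (Sum.inl v)) := by
    intro v
    rw [bl_schur, d2, c1, c2, b3, b4]; noncomm_ring
  have g8 : ∀ v, bl (D - C * B) (Sum.inr (Sum.inl v)) (Sum.inl v) =
      bl C (Sum.inr (Sum.inl v)) 1 - blk B v := by
    intro v
    rw [bl_schur, d3, c3, bX, b1, b2]; noncomm_ring
  have g6 : ∀ v, bl (D - C * B) (Sum.inr (Sum.inl v)) (Sum.inr (Sum.inr (Sum.inl v))) =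
      -(bl B 0 (Sum.inr (Sum.inr (Sum.inl v))) + bl C (Sum.inr (Sum.inl v)) 2) := by
    intro v
    rw [bl_schur, d4, c3, b5, b6]; noncomm_ring
  have g7 : ∀ v, bl (D - C * B) (Sum.inr (Sum.inl v)) (Sum.inr (Sum.inr (Sum.inr ()))) =
      bl C (Sum.inr (Sum.inl v)) 2 - bl C (Sum.inr (Sum.inl v)) 1 := by
    intro v
    rw [bl_schur, d5, c3, b7, b8, b9]; noncomm_ring
  have g1 : ∀ i, bl (D - C * B) (Sum.inr (Sum.inr (Sum.inl i))) (Sum.inl (P i).1) =
      bl C (Sum.inr (Sum.inr (Sum.inl i))) 1 - blk B (P i).1 := by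
    intro i
    rw [bl_schur, d6, c4, bX, b1, b2]; noncomm_ring
  have g2 : ∀ i, bl (D - C * B) (Sum.inr (Sum.inr (Sum.inl i))) (Sum.inr (Sum.inl (P i).2.2)) =
      bl C (Sum.inr (Sum.inr (Sum.inl i))) 1 -
        bl C (Sum.inr (Sum.inr (Sum.inl i))) 2 * bl B 2 (Sum.inr (Sum.inl (P i).2.2)) := by
    intro i
    rw [bl_schur, d7, c4, b3, b4]; noncomm_ring
  have g5 : ∀ i, bl (D - C * B) (Sum.inr (Sum.inr (Sum.inl i)))
      (Sum.inr (Sum.inr (Sum.inl (P i).2.1))) =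
      -(bl B 0 (Sum.inr (Sum.inr (Sum.inl (P i).2.1))) +
        bl C (Sum.inr (Sum.inr (Sum.inl i))) 2) := by
    intro i
    rw [bl_schur, d8, c4, b5, b6]; noncomm_ring
  have g9 : bl (D - C * B) (Sum.inr (Sum.inr (Sum.inr ()))) (Sum.inl u) =
      1 - blk B u + bl C (Sum.inr (Sum.inr (Sum.inr ()))) 1 := by
    rw [bl_schur, d9, c5, bX, b1, b2]; noncomm_ring
  have g0 : bl (D - C * B) (Sum.inr (Sum.inr (Sum.inr ()))) (Sum.inr (Sum.inl t)) =
      bl C (Sum.inr (Sum.inr (Sum.inr ()))) 1 + bl B 2 (Sum.inr (Sum.inl t)) := by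
    rw [bl_schur, d0, c5, c6, b3, b4]; noncomm_ring
  -- `X'_v - X_v`
  have hX : ∀ v, (bl B 2 (Sum.inr (Sum.inl v)) - blk B v).rank ≤ 2 * e := by
    intro v
    have : bl B 2 (Sum.inr (Sum.inl v)) - blk B v =
        bl (D - C * B) (Sum.inl v) (Sum.inl v) -
          bl (D - C * B) (Sum.inl v) (Sum.inr (Sum.inl v)) := by
      rw [g3, g4]; noncomm_ring
    rw [this]
    refine (rsub _ _).trans ?_
    have h1 := hG (Sum.inl v) (Sum.inl v)
    have h2 := hG (Sum.inl v) (Sum.inr (Sum.inl v))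
    omega
  refine ⟨?_, ?_, ?_⟩
  · rw [← bX, bl_of hB (a := 0) (by simp [gB])]; simp
  · intro i
    set X := blk B with hXdef
    have e1 : X (P i).1 - X (P i).2.1 * X (P i).2.2 =
        (-bl (D - C * B) (Sum.inr (Sum.inr (Sum.inl i))) (Sum.inl (P i).1) +
          bl (D - C * B) (Sum.inr (Sum.inr (Sum.inl i))) (Sum.inr (Sum.inl (P i).2.2))) +
        (bl C (Sum.inr (Sum.inr (Sum.inl i))) 2 *
          (bl B 2 (Sum.inr (Sum.inl (P i).2.2)) - X (P i).2.2) +
        ((-bl (D - C * B) (Sum.inr (Sum.inr (Sum.inl i)))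
            (Sum.inr (Sum.inr (Sum.inl (P i).2.1))) +
          bl (D - C * B) (Sum.inr (Sum.inl (P i).2.1)) (Sum.inr (Sum.inr (Sum.inl (P i).2.1)))) +
          (bl (D - C * B) (Sum.inr (Sum.inl (P i).2.1)) (Sum.inr (Sum.inr (Sum.inr ()))) +
          bl (D - C * B) (Sum.inr (Sum.inl (P i).2.1)) (Sum.inl (P i).2.1))) *
            X (P i).2.2) := by
      rw [g1, g2, g5, g6, g7, g8]; noncomm_ring
    rw [e1]
    have h1 := hG (Sum.inr (Sum.inr (Sum.inl i))) (Sum.inl (P i).1)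
    have h2 := hG (Sum.inr (Sum.inr (Sum.inl i))) (Sum.inr (Sum.inl (P i).2.2))
    have h3 := hX (P i).2.2
    have h4 := hG (Sum.inr (Sum.inr (Sum.inl i))) (Sum.inr (Sum.inr (Sum.inl (P i).2.1)))
    have h5 := hG (Sum.inr (Sum.inl (P i).2.1)) (Sum.inr (Sum.inr (Sum.inl (P i).2.1)))
    have h6 := hG (Sum.inr (Sum.inl (P i).2.1)) (Sum.inr (Sum.inr (Sum.inr ())))
    have h7 := hG (Sum.inr (Sum.inl (P i).2.1)) (Sum.inl (P i).2.1)
    refine (radd _ _).trans ?_
    refine (Nat.add_le_add ((radd _ _).trans (Nat.add_le_add ((rneg _).trans h1) h2))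
      ((radd _ _).trans (Nat.add_le_add ((rank_mul_le_right _ _).trans h3)
        ((rank_mul_le_left _ _).trans ((radd _ _).trans
          (Nat.add_le_add ((radd _ _).trans (Nat.add_le_add ((rneg _).trans h4) h5))
            ((radd _ _).trans (Nat.add_le_add h6 h7)))))))).trans ?_
    omega
  · have e1 : blk B u + blk B t - 1 =
        (-bl (D - C * B) (Sum.inr (Sum.inr (Sum.inr ()))) (Sum.inl u) +
          bl (D - C * B) (Sum.inr (Sum.inr (Sum.inr ()))) (Sum.inr (Sum.inl t))) -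
        (bl B 2 (Sum.inr (Sum.inl t)) - blk B t) := by
      rw [g9, g0]; noncomm_ring
    rw [e1]
    have h1 := hG (Sum.inr (Sum.inr (Sum.inr ()))) (Sum.inl u)
    have h2 := hG (Sum.inr (Sum.inr (Sum.inr ()))) (Sum.inr (Sum.inl t))
    have h3 := hX t
    refine (rsub _ _).trans ((Nat.add_le_add ((radd _ _).trans
      (Nat.add_le_add ((rneg _).trans h1) h2)) h3).trans ?_)
    omega

end Pool.Agent.T6.H48.FM
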