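import Pool.Agent.T6.H48.FM.Defs

/-!
Project FM, module GUP: completions of the gadget.
-/

set_option autoImplicit false

namespace Pool.Agent.T6.H48.FM

open Matrix

namespace ModGUP

theorem rk_add {F : Type*} [Field F] {m n : Type} [Fintype m] [Fintype n] (A B : Matrix m n F) :
    (A + B).rank ≤ A.rank + B.rank := by
  unfold Matrix.rank
  rw [Matrix.mulVecLin_add]
  refine (Submodule.finrank_mono ?_).trans (Submodule.finrank_add_le_finrank_add_finrank _ _)
  rintro _ ⟨x, rfl⟩
  exact Submodule.add_mem_sup ⟨x, rfl⟩ ⟨x, rfl⟩

theorem rk_sum {F : Type*} [Field F] {m n ι : Type} [Fintype m] [Fintype n] (s : Finset ι)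
    (A : ι → Matrix m n F) : (∑ i ∈ s, A i).rank ≤ ∑ i ∈ s, (A i).rank := by
  classical
  induction s using Finset.induction_on with
  | empty => simp
  | insert i s hi ih =>
    rw [Finset.sum_insert hi, Finset.sum_insert hi]
    exact (rk_add _ _).trans (Nat.add_le_add_left ih _)

theorem rk_neg {F : Type*} [Field F] {n : Type} [Fintype n] [DecidableEq n] (A : Matrix n n F) :
    (-A).rank ≤ A.rank := by
  have : -A = A * (-1) := by simp
  rw [this]
  exact rank_mul_le_left _ _

/-- a matrix with one block -/
def one {F : Type*} [Field F] {I J K : Type} [DecidableEq I] [DecidableEq J] (i : I) (j : J)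
    (M : Matrix K K F) : Matrix (I × K) (J × K) F :=
  Matrix.of fun x y => if x.1 = i ∧ y.1 = j then M x.2 y.2 else 0

theorem rk_one {F : Type*} [Field F] {I J K : Type} [Fintype I] [Fintype J] [Fintype K]
    [DecidableEq I] [DecidableEq J] [DecidableEq K] (i : I) (j : J) (M : Matrix K K F) :
    (one i j M).rank ≤ M.rank := by
  have h : one i j M =
      (Matrix.of fun (x : I × K) (s : K) => if x.1 = i then (if x.2 = s then (1 : F) else 0) else 0) *
        (M * (Matrix.of fun (s : K) (y : J × K) =>
          if y.1 = j then (if s = y.2 then (1 : F) else 0) else 0)) := by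
    ext x y
    simp only [one, of_apply, mul_apply]
    by_cases h1 : x.1 = i
    · by_cases h2 : y.1 = j
      · simp [h1, h2]
      · simp [h1, h2]
    · simp [h1]
  rw [h]
  exact (rank_mul_le_right _ _).trans (rank_mul_le_left _ _)

section

variable {F : Type*} [Field F] {V E K : Type} [Fintype K] [DecidableEq K]

/-- the blocks of `B` -/
def bB (X : V → Matrix K K F) (c : Fin 3) : Col V → Matrix K K F
  | Sum.inl v => if c = 0 then X v else if c = 1 then -1 else 0
  | Sum.inr (Sum.inl v) => if c = 0 then 0 else if c = 1 then -1 else X v
  | Sum.inr (Sum.inr (Sum.inl v)) => if c = 0 then -X v else if c = 1 then 0 else 1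
  | Sum.inr (Sum.inr (Sum.inr _)) => if c = 0 then 0 else if c = 1 then 1 else -1

/-- the blocks of `C` -/
def bC (P : E → V × V × V) (t : V) (X : V → Matrix K K F) : Row V E → Fin 3 → Matrix K K F
  | Sum.inl v, c => if c = 1 then X v else 1
  | Sum.inr (Sum.inl v), c => if c = 0 then 1 else X v
  | Sum.inr (Sum.inr (Sum.inl e)), c =>
      if c = 0 then 1 else if c = 1 then X (P e).2.1 * X (P e).2.2 else X (P e).2.1
  | Sum.inr (Sum.inr (Sum.inr _)), c => if c = 0 then 1 else if c = 1 then -X t else -1

/-- the blocks of `C B` -/
def cb (P : E → V × V × V) (t : V) (X : V → Matrix K K F) (x : Row V E) (y : Col V) :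
    Matrix K K F :=
  bC P t X x 0 * bB X 0 y + bC P t X x 1 * bB X 1 y + bC P t X x 2 * bB X 2 y

end

end ModGUP

open ModGUP in
theorem mGUP (F : Type*) [Field F] : StmGUP F := by
  intro V E K _ _ _ _ _ _ O u t P X hO
  let B : Matrix (Fin 3 × K) (Col V × K) F := Matrix.of fun x y => bB X x.1 y.1 x.2 y.2
  let C : Matrix (Row V E × K) (Fin 3 × K) F := Matrix.of fun x y => bC P t X x.1 y.1 x.2 y.2
  let D : Matrix (Row V E × K) (Col V × K) F := Matrix.of fun x y =>
    match gD F P u t x.1 y.1 with
    | some a => if x.2 = y.2 then a else 0
    | none => cb P t X x.1 y.1 x.2 y.2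
  refine ⟨B, C, D, ?_, ?_, ?_, ?_, ?_⟩
  · intro c y a h s r
    have key : bB X c y = a • (1 : Matrix K K F) := by
      rcases y with v | v | v | v
      · simp only [gB] at h
        simp only [bB]
        split_ifs at h ⊢ with h1 h2
        · injection h with h
          rw [h2, hO, ← h, zero_smul]
        · injection h with h
          rw [← h, neg_smul, one_smul]
        · injection h with h
          rw [← h, zero_smul]
      · simp only [gB] at h
        simp only [bB]
        split_ifs at h ⊢ with h1 h2
        · injection h with h
          rw [← h, zero_smul]
        · injection h with h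
          rw [← h, neg_smul, one_smul]
      · simp only [gB] at h
        simp only [bB]
        split_ifs at h ⊢ with h1 h2
        · injection h with h
          rw [← h, zero_smul]
        · injection h with h
          rw [← h, one_smul]
      · simp only [gB] at h
        simp only [bB]
        split_ifs at h ⊢ with h1 h2
        · injection h with h
          rw [← h, zero_smul]
        · injection h with h
          rw [← h, one_smul]
        · injection h with h
          rw [← h, neg_smul, one_smul]
    show bB X c y s r = _
    rw [key, Matrix.smul_apply, Matrix.one_apply]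
    split_ifs <;> simp
  · intro x c a h s r
    have key : bC P t X x c = a • (1 : Matrix K K F) := by
      rcases x with v | v | e | v
      · simp only [gC] at h
        simp only [bC]
        split_ifs at h ⊢ with h1
        · injection h with h
          rw [← h, one_smul]
      · simp only [gC] at h
        simp only [bC]
        split_ifs at h ⊢ with h1
        · injection h with h
          rw [← h, one_smul]
      · simp only [gC] at h
        simp only [bC]
        split_ifs at h ⊢ with h1
        · injection h with h
          rw [← h, one_smul]
      · simp only [gC] at h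
        simp only [bC]
        split_ifs at h ⊢ with h1 h2
        · injection h with h
          rw [← h, one_smul]
        · injection h with h
          rw [← h, neg_smul, one_smul]
    show bC P t X x c s r = _
    rw [key, Matrix.smul_apply, Matrix.one_apply]
    split_ifs <;> simp
  · intro x y a h s r
    show (match gD F P u t x y with
      | some a => if s = r then a else 0
      | none => cb P t X x y s r) = _
    rw [h]
  · intro v
    ext s r
    show bB X 0 (Sum.inl v) s r = _
    simp [bB]
  · -- the Schur complement
    have hCB : ∀ x y s r, (C * B) (x, s) (y, r) = cb P t X x y s r := by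
      intro x y s r
      rw [mul_apply, Fintype.sum_prod_type, Fin.sum_univ_three]
      simp only [cb, Matrix.add_apply, mul_apply]
      rfl
    have hG : D - C * B = ∑ e, one (Sum.inr (Sum.inr (Sum.inl e))) (Sum.inl (P e).1)
        (-(X (P e).1 - X (P e).2.1 * X (P e).2.2)) +
        one (Sum.inr (Sum.inr (Sum.inr ()))) (Sum.inl u) (-(X u + X t - 1)) := by
      -- the blocks
      have hblk : ∀ (x : Row V E) (y : Col V) (s r : K), (D - C * B) (x, s) (y, r) =
          match gD F P u t x y with
          | some a => (a • (1 : Matrix K K F) - cb P t X x y) s r
          | none => 0 := by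
        intro x y s r
        rw [Matrix.sub_apply, hCB]
        show (match gD F P u t x y with
          | some a => if s = r then a else 0
          | none => cb P t X x y s r) - _ = _
        rcases gD F P u t x y with _ | a
        · simp
        · simp only [Matrix.sub_apply, Matrix.smul_apply, Matrix.one_apply]
          split_ifs <;> simp
      have hsum : ∀ (x : Row V E) (y : Col V) (s r : K),
          (∑ e, one (Sum.inr (Sum.inr (Sum.inl e))) (Sum.inl (P e).1)
            (-(X (P e).1 - X (P e).2.1 * X (P e).2.2)) +
            one (Sum.inr (Sum.inr (Sum.inr ()))) (Sum.inl u) (-(X u + X t - 1)) :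
            Matrix (Row V E × K) (Col V × K) F) (x, s) (y, r) =
          ∑ e, (if x = Sum.inr (Sum.inr (Sum.inl e)) ∧ y = Sum.inl (P e).1 then
            (-(X (P e).1 - X (P e).2.1 * X (P e).2.2)) s r else 0) +
          (if x = Sum.inr (Sum.inr (Sum.inr ())) ∧ y = Sum.inl u then
            (-(X u + X t - 1)) s r else 0) := by
        intro x y s r
        rw [Matrix.add_apply, Matrix.sum_apply]
        rfl
      ext ⟨x, s⟩ ⟨y, r⟩
      rw [hblk, hsum]
      rcases x with v | v | e | x
      · rcases y with w | w | w | w
        · by_cases h : v = w
          · subst h
            simp [gD, cb, bC, bB]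
          · simp [gD, h]
        · by_cases h : v = w
          · subst h
            simp [gD, cb, bC, bB]
          · simp [gD, h]
        · simp [gD]
        · simp [gD]
      · rcases y with w | w | w | w
        · by_cases h : v = w
          · subst h
            simp [gD, cb, bC, bB]
          · simp [gD, h]
        · simp [gD]
        · by_cases h : v = w
          · subst h
            simp [gD, cb, bC, bB]
          · simp [gD, h]
        · simp [gD, cb, bC, bB]
      · rcases y with w | w | w | w
        · by_cases h : w = (P e).1
          · subst h
            simp [gD, cb, bC, bB]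
            rw [Finset.sum_eq_single e (fun x _ hx => if_neg fun hh => hx hh.1.symm)
              (fun hh => absurd (Finset.mem_univ e) hh)]
            simp
            ring
          · simp [gD, h]
            symm
            refine Finset.sum_eq_zero fun x _ => if_neg ?_
            rintro ⟨rfl, h2⟩
            exact h h2
        · by_cases h : w = (P e).2.2
          · subst h
            simp [gD, cb, bC, bB]
          · simp [gD, h]
        · by_cases h : w = (P e).2.1
          · subst h
            simp [gD, cb, bC, bB]
          · simp [gD, h]
        · simp [gD]
      · rcases y with w | w | w | w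
        · by_cases h : w = u
          · subst h
            simp [gD, cb, bC, bB]
          · simp [gD, h]
        · by_cases h : w = t
          · subst h
            simp [gD, cb, bC, bB]
          · simp [gD, h]
        · simp [gD]
        · simp [gD]
    rw [hG]
    refine (rk_add _ _).trans (Nat.add_le_add ((rk_sum _ _).trans ?_) ?_)
    · exact Finset.sum_le_sum fun e _ => (rk_one _ _ _).trans (rk_neg _)
    · exact (rk_one _ _ _).trans (rk_neg _)

end Pool.Agent.T6.H48.FM
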