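import Pool.Agent.T6.H48.FM.Defs

/-!
Module LIM (helper60): the sizes of the approximate solutions.
-/

set_option autoImplicit false

namespace Pool.Agent.T6.H48.FM

namespace ModLIM

theorem bN_rec (N : ℕ) : bN (N + 2) = bN (N + 1) + bN N + (N + 1) := by
  have h1 : bN (N + 2) = ∑ j ∈ Finset.range (N + 1), Nat.fib (N + 2 - j) * j + (N + 1) := by
    unfold bN
    rw [Finset.sum_range_succ]
    congr 1
    have : N + 2 - (N + 1) = 1 := by omega
    rw [this, Nat.fib_one, one_mul]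
  have h2 : ∑ j ∈ Finset.range (N + 1), Nat.fib (N + 2 - j) * j =
      ∑ j ∈ Finset.range (N + 1), Nat.fib (N - j) * j +
        ∑ j ∈ Finset.range (N + 1), Nat.fib (N + 1 - j) * j := by
    rw [← Finset.sum_add_distrib]
    refine Finset.sum_congr rfl fun j hj => ?_
    rw [Finset.mem_range] at hj
    have e1 : N + 2 - j = (N - j) + 2 := by omega
    have e2 : N + 1 - j = (N - j) + 1 := by omega
    rw [e1, e2, Nat.fib_add_two, add_mul]
  have h3 : ∑ j ∈ Finset.range (N + 1), Nat.fib (N - j) * j = bN N := by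
    rw [Finset.sum_range_succ, Nat.sub_self, Nat.fib_zero, zero_mul, add_zero]
    rfl
  have h4 : ∑ j ∈ Finset.range (N + 1), Nat.fib (N + 1 - j) * j = bN (N + 1) := rfl
  rw [h1, h2, h3, h4]
  ring

theorem bN_eq : ∀ N : ℕ, bN N + (N + 2) = Nat.fib (N + 3)
  | 0 => by simp [bN]; decide
  | 1 => by simp [bN]; decide
  | N + 2 => by
    have h1 := bN_eq N
    have h2 := bN_eq (N + 1)
    have h3 := bN_rec N
    have h4 : Nat.fib (N + 2 + 3) = Nat.fib (N + 3) + Nat.fib (N + 1 + 3) :=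
      Nat.fib_add_two
    omega

end ModLIM

open ModLIM in
/-- Module LIM. -/
theorem mLIM : StmLIM := by
  intro C η hη
  set g : ℝ := Real.goldenRatio⁻¹ with hg
  have hphi := Real.one_lt_goldenRatio
  have hphi0 := Real.goldenRatio_pos
  have hg0 : 0 < g := inv_pos.2 hphi0
  have hg1 : g < 1 := inv_lt_one_of_one_lt₀ hphi
  set K : ℝ := 1 + |C| + g + η with hK
  have hK0 : 0 < K := by positivity
  have h1 : Filter.Tendsto (fun n : ℕ => (n : ℝ) ^ 1 * g ^ n) Filter.atTop (nhds 0) :=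
    tendsto_pow_const_mul_const_pow_of_abs_lt_one 1 (by rw [abs_of_pos hg0]; exact hg1)
  have h2 : ∀ᶠ n : ℕ in Filter.atTop, (n : ℝ) ^ 1 * g ^ n < η / (4 * K) :=
    h1.eventually_lt_const (by positivity)
  obtain ⟨n, hn, hn3⟩ := (h2.and (Filter.eventually_ge_atTop 4)).exists
  obtain ⟨M, rfl⟩ : ∃ M, n = M + 3 := ⟨n - 3, by omega⟩
  have hM : 1 ≤ M := by omega
  rw [pow_one] at hn
  have h3 : ((M + 3 : ℕ) : ℝ) < η / (4 * K) * Real.goldenRatio ^ (M + 3) := by
    have h4 : ((M + 3 : ℕ) : ℝ) = ((M + 3 : ℕ) : ℝ) * g ^ (M + 3) * Real.goldenRatio ^ (M + 3) := by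
      rw [mul_assoc, ← mul_pow, hg, inv_mul_cancel₀ hphi0.ne', one_pow, mul_one]
    rw [h4]
    exact mul_lt_mul_of_pos_right hn (by positivity)
  have h4 : Real.goldenRatio ^ (M + 3) ≤ 2 * Nat.fib (M + 4) := by
    have h5 := Real.fib_succ_sub_goldenConj_mul_fib (M + 3)
    have h6 : (Nat.fib (M + 3) : ℝ) ≤ Nat.fib (M + 4) := by
      exact_mod_cast Nat.fib_mono (by omega)
    have h7 := Real.neg_one_lt_goldenConj
    have h8 : (0 : ℝ) ≤ Nat.fib (M + 3) := Nat.cast_nonneg _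
    have h9 : -(Real.goldenConj * Nat.fib (M + 3)) ≤ Nat.fib (M + 3) := by nlinarith
    rw [← h5]
    have h10 : M + 3 + 1 = M + 4 := rfl
    rw [h10]
    linarith
  have h5 : K * ((M : ℝ) + 4) ≤ η * Nat.fib (M + 4) := by
    have h6 : ((M : ℝ) + 3) ≤ η / (4 * K) * (2 * Nat.fib (M + 4)) := by
      have h7 : ((M + 3 : ℕ) : ℝ) = (M : ℝ) + 3 := by push_cast; ring
      rw [← h7]
      exact h3.le.trans (mul_le_mul_of_nonneg_left h4 (by positivity))
    have h7 : (M : ℝ) + 4 ≤ 2 * ((M : ℝ) + 3) := by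
      have : (0 : ℝ) ≤ M := Nat.cast_nonneg _
      linarith
    calc K * ((M : ℝ) + 4) ≤ K * (2 * (η / (4 * K) * (2 * Nat.fib (M + 4)))) :=
          mul_le_mul_of_nonneg_left (h7.trans (by linarith)) hK0.le
      _ = η * Nat.fib (M + 4) := by
          field_simp
          ring
  have h6 := Real.fib_succ_sub_goldenRatio_mul_fib (M + 3)
  have hpsi : |Real.goldenConj ^ (M + 3)| ≤ 1 := by
    rw [abs_pow]
    refine pow_le_one₀ (abs_nonneg _) ?_
    rw [abs_le]
    exact ⟨Real.neg_one_lt_goldenConj.le, (Real.goldenConj_neg.le).trans zero_le_one⟩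
  have h7 : (Nat.fib (M + 3) : ℝ) = g * Nat.fib (M + 4) - g * Real.goldenConj ^ (M + 3) := by
    have h10 : M + 3 + 1 = M + 4 := rfl
    rw [h10] at h6
    rw [← h6, hg]
    field_simp
    ring
  have h8 : -(g * Real.goldenConj ^ (M + 3)) ≤ 1 := by
    have h9 := (abs_le.1 hpsi).1
    nlinarith
  have e1 : (bN M : ℝ) = Nat.fib (M + 3) - (M + 2) := by
    have := bN_eq M
    have h : (bN M : ℝ) + (M + 2) = Nat.fib (M + 3) := by exact_mod_cast this
    linarith
  have e2 : (bN (M + 1) : ℝ) = Nat.fib (M + 4) - (M + 3) := by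
    have := bN_eq (M + 1)
    have h : (bN (M + 1) : ℝ) + ((M + 1 : ℕ) + 2) = Nat.fib (M + 1 + 3) := by exact_mod_cast this
    have h10 : M + 1 + 3 = M + 4 := by omega
    rw [h10] at h
    push_cast at h
    linarith
  refine ⟨M + 1, ?_, ?_⟩
  · have h9 := bN_eq (M + 1)
    by_contra hcon
    have h10 : bN (M + 1) = 0 := by omega
    have h11 := Nat.le_fib_add_one (M + 4)
    rw [h10] at h9
    have h12 : Nat.fib (M + 4) = M + 3 := by
      have : M + 1 + 3 = M + 4 := by omega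
      rw [this] at h9
      omega
    have h13 : ∀ m : ℕ, m + 5 ≤ Nat.fib (m + 5) := fun m => Nat.le_fib_self (by omega)
    obtain ⟨M', rfl⟩ : ∃ M', M = M' + 1 := ⟨M - 1, by omega⟩
    have h14 := h13 M'
    have h15 : M' + 1 + 4 = M' + 5 := by omega
    rw [h15] at h12
    omega
  · have e3 : M + 1 - 1 = M := by omega
    rw [e3, e1, e2, h7]
    push_cast
    have hC : C * ((M : ℝ) + 1) ≤ |C| * (M + 4) := by
      have h9 := le_abs_self C
      have h10 : (0 : ℝ) ≤ M := Nat.cast_nonneg _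
      have h11 : 0 ≤ |C| := abs_nonneg C
      nlinarith
    have hM0 : (0 : ℝ) ≤ M := Nat.cast_nonneg _
    have h12 : K * ((M : ℝ) + 4) = (M + 4) + |C| * (M + 4) + g * (M + 4) + η * (M + 4) := by
      rw [hK]
      ring
    nlinarith [mul_pos hg0 (by linarith : (0 : ℝ) < M + 4), mul_pos hη (by linarith : (0 : ℝ) < M + 4)]

end Pool.Agent.T6.H48.FM
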