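import Pool.Agent.T6.H48.FM.Defs

set_option autoImplicit false
set_option linter.unusedSectionVars false

namespace Pool.Agent.T6.H48.FM

open Matrix

namespace ModLOW

variable {F : Type*} [Field F] {L : ℕ} {K : Type} [Fintype K] [DecidableEq K]

/-- upper right block -/
def MB (M : Matrix (BI L × K) (BJ L × K) F) :
    Matrix ((Fin L × Fin 3) × K) ((Fin L × Col (Fin 16)) × K) F :=
  Matrix.of fun x y => M (Sum.inl x.1, x.2) (Sum.inr y.1, y.2)

/-- lower left block -/
def MC (M : Matrix (BI L × K) (BJ L × K) F) :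
    Matrix (((Fin L × Row (Fin 16) (Fin 14)) ⊕ Unit) × K) ((Fin L × Fin 3) × K) F :=
  Matrix.of fun x y => M (Sum.inr x.1, x.2) (Sum.inl y.1, y.2)

/-- lower right block -/
def MD (M : Matrix (BI L × K) (BJ L × K) F) :
    Matrix (((Fin L × Row (Fin 16) (Fin 14)) ⊕ Unit) × K) ((Fin L × Col (Fin 16)) × K) F :=
  Matrix.of fun x y => M (Sum.inr x.1, x.2) (Sum.inr y.1, y.2)

/-- copy `l` of `B` -/
def Bl (M : Matrix (BI L × K) (BJ L × K) F) (l : Fin L) :
    Matrix (Fin 3 × K) (Col (Fin 16) × K) F :=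
  Matrix.of fun x y => M (Sum.inl (l, x.1), x.2) (Sum.inr (l, y.1), y.2)

def Cl (M : Matrix (BI L × K) (BJ L × K) F) (l : Fin L) :
    Matrix (Row (Fin 16) (Fin 14) × K) (Fin 3 × K) F :=
  Matrix.of fun x y => M (Sum.inr (Sum.inl (l, x.1)), x.2) (Sum.inl (l, y.1), y.2)

def Dl (M : Matrix (BI L × K) (BJ L × K) F) (l : Fin L) :
    Matrix (Row (Fin 16) (Fin 14) × K) (Col (Fin 16) × K) F :=
  Matrix.of fun x y => M (Sum.inr (Sum.inl (l, x.1)), x.2) (Sum.inr (l, y.1), y.2)

lemma Bl_compl {M : Matrix (BI L × K) (BJ L × K) F} (h : IsCompl (big F L) M) (l : Fin L) :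
    IsCompl (gB F 15) (Bl M l) := by
  intro i j a ha s t
  have := h (Sum.inl (l, i)) (Sum.inr (l, j)) a (by simpa [big] using ha) s t
  simpa [Bl] using this

lemma Cl_compl {M : Matrix (BI L × K) (BJ L × K) F} (h : IsCompl (big F L) M) (l : Fin L) :
    IsCompl (gC F) (Cl M l) := by
  intro i j a ha s t
  have := h (Sum.inr (Sum.inl (l, i))) (Sum.inl (l, j)) a (by simpa [big] using ha) s t
  simpa [Cl] using this

lemma Dl_compl {M : Matrix (BI L × K) (BJ L × K) F} (h : IsCompl (big F L) M) (l : Fin L) :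
    IsCompl (gD F sysP 13 14) (Dl M l) := by
  intro i j a ha s t
  have := h (Sum.inr (Sum.inl (l, i))) (Sum.inr (l, j)) a (by simpa [big] using ha) s t
  simpa [Dl] using this

lemma M_one {M : Matrix (BI L × K) (BJ L × K) F} (h : IsCompl (big F L) M)
    (x y : Fin L × Fin 3) (s t : K) :
    M (Sum.inl x, s) (Sum.inl y, t) = if s = t then (if x = y then 1 else 0) else 0 :=
  h (Sum.inl x) (Sum.inl y) _ rfl s t

lemma MB_zero {M : Matrix (BI L × K) (BJ L × K) F} (h : IsCompl (big F L) M)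
    {l l' : Fin L} (hl : l ≠ l') (c : Fin 3) (col : Col (Fin 16)) (s t : K) :
    MB M ((l, c), s) ((l', col), t) = 0 := by
  have := h (Sum.inl (l, c)) (Sum.inr (l', col)) 0 (by simp [big, hl]) s t
  simpa [MB] using this

lemma MC_zero {M : Matrix (BI L × K) (BJ L × K) F} (h : IsCompl (big F L) M)
    {l l' : Fin L} (hl : l ≠ l') (row : Row (Fin 16) (Fin 14)) (c : Fin 3) (s t : K) :
    MC M (Sum.inl (l, row), s) ((l', c), t) = 0 := by
  have := h (Sum.inr (Sum.inl (l, row))) (Sum.inl (l', c)) 0 (by simp [big, hl]) s t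
  simpa [MC] using this

lemma MD_zero {M : Matrix (BI L × K) (BJ L × K) F} (h : IsCompl (big F L) M)
    {l l' : Fin L} (hl : l ≠ l') (row : Row (Fin 16) (Fin 14)) (col : Col (Fin 16)) (s t : K) :
    MD M (Sum.inl (l, row), s) ((l', col), t) = 0 := by
  have := h (Sum.inr (Sum.inl (l, row))) (Sum.inr (l', col)) 0 (by simp [big, hl]) s t
  simpa [MD] using this

lemma MC_rho {M : Matrix (BI L × K) (BJ L × K) F} (h : IsCompl (big F L) M)
    (l : Fin L) (c : Fin 3) (s t : K) :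
    MC M (Sum.inr (), s) ((l, c), t) = if s = t then (if c = 0 then 1 else 0) else 0 :=
  h (Sum.inr (Sum.inr ())) (Sum.inl (l, c)) _ rfl s t

lemma MD_rho {M : Matrix (BI L × K) (BJ L × K) F} (h : IsCompl (big F L) M)
    (l : Fin L) (s t : K) :
    MD M (Sum.inr (), s) ((l, Sum.inl 0), t) = 0 := by
  have := h (Sum.inr (Sum.inr ())) (Sum.inr (l, Sum.inl 0)) 0 (by simp [big]) s t
  simpa [MD] using this

/-- the Schur complement -/
def GG (M : Matrix (BI L × K) (BJ L × K) F) :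
    Matrix (((Fin L × Row (Fin 16) (Fin 14)) ⊕ Unit) × K) ((Fin L × Col (Fin 16)) × K) F :=
  MD M - MC M * MB M

/-- the small Schur complements -/
def Gl (M : Matrix (BI L × K) (BJ L × K) F) (l : Fin L) :
    Matrix (Row (Fin 16) (Fin 14) × K) (Col (Fin 16) × K) F :=
  Dl M l - Cl M l * Bl M l

lemma GG_off {M : Matrix (BI L × K) (BJ L × K) F} (h : IsCompl (big F L) M)
    {l l' : Fin L} (hl : l ≠ l') (row : Row (Fin 16) (Fin 14)) (col : Col (Fin 16)) (s t : K) :
    GG M (Sum.inl (l, row), s) ((l', col), t) = 0 := by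
  rw [GG, Matrix.sub_apply, MD_zero h hl, Matrix.mul_apply, Finset.sum_eq_zero, sub_zero]
  rintro ⟨⟨l2, c⟩, r⟩ _
  by_cases h2 : l = l2
  · subst h2
    rw [MB_zero h hl, mul_zero]
  · rw [MC_zero h h2, zero_mul]

lemma GG_diag {M : Matrix (BI L × K) (BJ L × K) F} (h : IsCompl (big F L) M)
    (l : Fin L) (row : Row (Fin 16) (Fin 14)) (col : Col (Fin 16)) (s t : K) :
    GG M (Sum.inl (l, row), s) ((l, col), t) = Gl M l (row, s) (col, t) := by
  rw [GG, Gl, Matrix.sub_apply, Matrix.sub_apply, Matrix.mul_apply, Matrix.mul_apply]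
  congr 1
  rw [Fintype.sum_prod_type, Fintype.sum_prod_type, Finset.sum_eq_single l]
  · rw [Fintype.sum_prod_type]
    rfl
  · intro l2 _ h2
    refine Finset.sum_eq_zero fun c _ => Finset.sum_eq_zero fun r _ => ?_
    rw [MC_zero h (Ne.symm h2), zero_mul]
  · intro hc
    exact absurd (Finset.mem_univ _) hc

lemma GG_rho {M : Matrix (BI L × K) (BJ L × K) F} (h : IsCompl (big F L) M)
    (l : Fin L) (s t : K) :
    GG M (Sum.inr (), s) ((l, Sum.inl 0), t) = - blk (Bl M l) 0 s t := by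
  rw [GG, Matrix.sub_apply, MD_rho h, Matrix.mul_apply, zero_sub]
  congr 1
  rw [Fintype.sum_eq_single ((l, 0), s)]
  · rw [MC_rho h]
    simp [MB, blk, Bl]
  · rintro ⟨⟨l2, c⟩, r⟩ h2
    by_cases h3 : l2 = l
    · subst h3
      rw [MC_rho h]
      by_cases h4 : s = r
      · subst h4
        have h5 : c ≠ 0 := by
          rintro rfl
          exact h2 rfl
        simp [h5]
      · simp [h4]
    · rw [MB_zero h h3, mul_zero]

lemma rank_neg' {I J : Type} [Fintype I] [Fintype J] (A : Matrix I J F) : (-A).rank = A.rank := by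
  refine le_antisymm ?_ ?_
  · classical
    have : -A = (-1 : Matrix I I F) * A := by simp
    rw [this]
    exact Matrix.rank_mul_le_right _ _
  · classical
    have : A = (-1 : Matrix I I F) * (-A) := by simp
    conv_lhs => rw [this]
    exact Matrix.rank_mul_le_right _ _

lemma GG_rank (hT : StmTRI F) {M : Matrix (BI L × K) (BJ L × K) F} (h : IsCompl (big F L) M)
    (l0 : Fin L) :
    (blk (Bl M l0) 0).rank + ∑ l : {l // l ≠ l0}, (Gl M l.1).rank ≤ (GG M).rank := by
  set fr : K ⊕ ({l // l ≠ l0} × (Row (Fin 16) (Fin 14) × K)) →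
      ((Fin L × Row (Fin 16) (Fin 14)) ⊕ Unit) × K := fun x => match x with
    | Sum.inl s => (Sum.inr (), s)
    | Sum.inr y => (Sum.inl (y.1.1, y.2.1), y.2.2) with hfr
  set fc : K ⊕ ({l // l ≠ l0} × (Col (Fin 16) × K)) → (Fin L × Col (Fin 16)) × K := fun x =>
    match x with
    | Sum.inl s => ((l0, Sum.inl 0), s)
    | Sum.inr y => ((y.1.1, y.2.1), y.2.2) with hfc
  refine le_trans ?_ (Matrix.rank_submatrix_le (GG M) fr fc)
  set A : Matrix K K F := - blk (Bl M l0) 0 with hA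
  set Bm : Matrix K ({l // l ≠ l0} × (Col (Fin 16) × K)) F :=
    Matrix.of fun s y => GG M (Sum.inr (), s) ((y.1.1, y.2.1), y.2.2) with hBm
  set Dm : Matrix ({l // l ≠ l0} × (Row (Fin 16) (Fin 14) × K))
      ({l // l ≠ l0} × (Col (Fin 16) × K)) F :=
    Matrix.of fun x y => GG M (Sum.inl (x.1.1, x.2.1), x.2.2) ((y.1.1, y.2.1), y.2.2) with hDm
  have h1 : (GG M).submatrix fr fc = fromBlocks A Bm 0 Dm := by
    ext x y
    rcases x with s | ⟨l, row, s⟩ <;> rcases y with t | ⟨l', col, t⟩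
    · simp only [Matrix.submatrix_apply, fromBlocks_apply₁₁, hfr, hfc, hA]
      exact GG_rho h l0 s t
    · rfl
    · simp only [Matrix.submatrix_apply, fromBlocks_apply₂₁, hfr, hfc]
      exact GG_off h l.2 row _ s t
    · rfl
  rw [h1, ← rank_neg' (blk (Bl M l0) 0)]
  refine le_trans ?_ (hT.1 _ _ _ _ A Bm Dm)
  refine Nat.add_le_add_left ?_ _
  rw [hT.2 _ _ _ Dm]
  · refine (Finset.sum_congr rfl fun l _ => ?_).le
    congr 1
    ext x y
    exact (GG_diag h l.1 x.1 y.1 x.2 y.2).symm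
  · rintro ⟨l, hl⟩ ⟨l', hl'⟩ hne ⟨row, s⟩ ⟨col, t⟩
    have hne' : l ≠ l' := fun e => hne (Subtype.ext e)
    exact GG_off h hne' row col s t

lemma M_rank (hS : StmSCH F) {M : Matrix (BI L × K) (BJ L × K) F} (h : IsCompl (big F L) M) :
    M.rank = 3 * L * Fintype.card K + (GG M).rank := by
  have h1 := hS ((Fin L × Fin 3) × K) (((Fin L × Row (Fin 16) (Fin 14)) ⊕ Unit) × K)
    ((Fin L × Col (Fin 16)) × K) (MB M) (MC M) (MD M)
  have h2 : fromBlocks 1 (MB M) (MC M) (MD M) =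
      M.submatrix (Equiv.sumProdDistrib _ _ _).symm (Equiv.sumProdDistrib _ _ _).symm := by
    ext x y
    rcases x with ⟨x, s⟩ | ⟨x, s⟩ <;> rcases y with ⟨y, t⟩ | ⟨y, t⟩
    · simp only [fromBlocks_apply₁₁, Matrix.submatrix_apply, Equiv.sumProdDistrib_symm_apply_left]
      rw [M_one h, Matrix.one_apply]
      by_cases h1 : x = y <;> by_cases h2 : s = t <;> simp [h1, h2]
    · rfl
    · rfl
    · rfl
  rw [h2, Matrix.rank_submatrix] at h1
  rw [h1]
  simp only [Fintype.card_prod, Fintype.card_fin]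
  rw [show (GG M) = MD M - MC M * MB M from rfl]
  ring

end ModLOW

open ModLOW in
theorem mLOW (F : Type*) [Field F] (hS : StmSCH F) (hT : StmTRI F) (hC : StmCOPY F) :
    StmLOW F := by
  intro L hL K _ _ M hM
  have : Nonempty (Fin L) := ⟨⟨0, by omega⟩⟩
  obtain ⟨l0, hl0⟩ := Finite.exists_min (fun l : Fin L => (Gl M l).rank)
  have h1 := GG_rank hT hM l0
  have h2 := M_rank hS hM
  have h3 : (L - 1) * (Gl M l0).rank ≤ ∑ l : {l // l ≠ l0}, (Gl M l.1).rank := by
    have : ∑ l : {l // l ≠ l0}, (Gl M l0).rank = (L - 1) * (Gl M l0).rank := by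
      rw [Finset.sum_const, smul_eq_mul, Finset.card_univ]
      congr 1
      rw [Fintype.card_subtype_compl]
      simp
    rw [← this]
    exact Finset.sum_le_sum fun l _ => hl0 l.1
  have h4 : 513 * (Gl M l0).rank ≤ (L - 1) * (Gl M l0).rank :=
    Nat.mul_le_mul_right _ (by omega)
  have h5 := hC K (Bl M l0) (Cl M l0) (Dl M l0) (Bl_compl hM l0) (Cl_compl hM l0) (Dl_compl hM l0)
  change _ ≤ Real.goldenRatio * _ + 512 * ((Gl M l0).rank : ℝ) at h5
  have h6 : (blk (Bl M l0) 0).rank + 513 * (Gl M l0).rank ≤ (GG M).rank := by omega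
  have h7 : ((blk (Bl M l0) 0).rank : ℝ) + 513 * ((Gl M l0).rank : ℝ) ≤ ((GG M).rank : ℝ) := by
    exact_mod_cast h6
  have hphi := Real.goldenRatio_pos
  have hinv : Real.goldenRatio⁻¹ ≤ 1 := inv_le_one_of_one_le₀ Real.one_lt_goldenRatio.le
  have h8 : Real.goldenRatio⁻¹ * (Fintype.card K : ℝ) ≤
      ((blk (Bl M l0) 0).rank : ℝ) + 512 * ((Gl M l0).rank : ℝ) := by
    have h9 := mul_le_mul_of_nonneg_left h5 (inv_nonneg.2 hphi.le)
    rw [mul_add, ← mul_assoc, inv_mul_cancel₀ hphi.ne', one_mul] at h9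
    have h10 : Real.goldenRatio⁻¹ * (512 * ((Gl M l0).rank : ℝ)) ≤
        1 * (512 * ((Gl M l0).rank : ℝ)) :=
      mul_le_mul_of_nonneg_right hinv (by positivity)
    linarith
  rw [h2]
  push_cast
  have h11 : (0 : ℝ) ≤ ((Gl M l0).rank : ℝ) := Nat.cast_nonneg _
  nlinarith [h8, h7, h11]

end Pool.Agent.T6.H48.FM
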