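import Pool.Agent.T6.H48.FM.Defs

/-!
Project FM, module SCH (helper54): rank of a block matrix and the Schur complement.
-/

set_option autoImplicit false

namespace Pool.Agent.T6.H48.FM

open Matrix

namespace ModSCH

theorem rank_diag {K : Type*} [Field K] {m₁ n₁ m₂ n₂ : Type*} [Fintype n₁] [Fintype n₂]
    (A : Matrix m₁ n₁ K) (D : Matrix m₂ n₂ K) :
    (Matrix.fromBlocks A 0 0 D).rank = A.rank + D.rank := by
  let e := LinearEquiv.sumArrowLequivProdArrow n₁ n₂ K K
  let e' := LinearEquiv.sumArrowLequivProdArrow m₁ m₂ K K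
  have h1 : (Matrix.fromBlocks A 0 0 D).mulVecLin =
      (e'.symm.toLinearMap ∘ₗ (A.mulVecLin.prodMap D.mulVecLin)) ∘ₗ e.toLinearMap := by
    apply LinearMap.ext
    intro v
    apply e'.injective
    simp only [LinearMap.comp_apply, LinearEquiv.coe_coe, LinearEquiv.apply_symm_apply]
    ext i
    · simp [e, e', Matrix.fromBlocks_mulVec]
      rfl
    · simp [e, e', Matrix.fromBlocks_mulVec]
      rfl
  rw [Matrix.rank, Matrix.rank, Matrix.rank, h1, LinearMap.range_comp_of_range_eq_top _ e.range,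
    LinearMap.range_comp, LinearEquiv.finrank_map_eq e'.symm, LinearMap.range_prodMap]
  let f : (A.mulVecLin.range.prod D.mulVecLin.range) ≃ₗ[K]
      A.mulVecLin.range × D.mulVecLin.range :=
    { toFun := fun x => (⟨x.1.1, x.2.1⟩, ⟨x.1.2, x.2.2⟩)
      map_add' := fun _ _ => rfl
      map_smul' := fun _ _ => rfl
      invFun := fun x => ⟨(x.1.1, x.2.1), ⟨x.1.2, x.2.2⟩⟩
      left_inv := fun _ => rfl
      right_inv := fun _ => rfl }
  rw [f.finrank_eq, Module.finrank_prod]

end ModSCH

open ModSCH in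
theorem mSCH (F : Type*) [Field F] : StmSCH F := by
  intro R I J _ _ _ _ B C D
  classical
  have h : fromBlocks 1 B C D = fromBlocks (1 : Matrix R R F) 0 C (1 : Matrix I I F) *
      ((fromBlocks (1 : Matrix R R F) 0 0 (D - C * B) : Matrix (R ⊕ I) (R ⊕ J) F) *
        fromBlocks (1 : Matrix R R F) B 0 (1 : Matrix J J F)) := by
    rw [fromBlocks_multiply, fromBlocks_multiply]
    simp
  rw [h, rank_mul_eq_right_of_isUnit_det, rank_mul_eq_left_of_isUnit_det, rank_diag, rank_one]
  · rw [det_fromBlocks_zero₂₁, det_one, det_one, one_mul]; exact isUnit_one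
  · rw [det_fromBlocks_zero₁₂, det_one, det_one, one_mul]; exact isUnit_one

end Pool.Agent.T6.H48.FM
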