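import Pool.Agent.T6.H48.FM.Defs

/-!
Module SEQ (helper60): Fibonacci recursion with errors.
-/

set_option autoImplicit false

namespace Pool.Agent.T6.H48.FM

namespace ModSEQ

theorem phi_le : Real.goldenRatio ≤ 1.62 := by
  unfold Real.goldenRatio
  have h : √5 ≤ 2.24 := by
    rw [Real.sqrt_le_left (by norm_num)]
    norm_num
  linarith

theorem step (f : ℕ → ℕ) (ε : ℕ) (h : ∀ n, f n ≤ f (n + 1) + f (n + 2) + 8 * (n + 1) * ε ∧
    f (n + 1) + f (n + 2) ≤ f n + 8 * (n + 1) * ε) (n : ℕ) :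
    |(f n : ℝ) - Real.goldenRatio * f (n + 1)| ≤ 8 * (n + 1) * ε +
      (Real.goldenRatio - 1) * |(f (n + 1) : ℝ) - Real.goldenRatio * f (n + 2)| := by
  obtain ⟨h1, h2⟩ := h n
  have h1' : (f n : ℝ) ≤ f (n + 1) + f (n + 2) + 8 * (n + 1) * ε := by exact_mod_cast h1
  have h2' : (f (n + 1) : ℝ) + f (n + 2) ≤ f n + 8 * (n + 1) * ε := by exact_mod_cast h2
  have hs := Real.goldenRatio_sq
  have h3 : (f n : ℝ) - Real.goldenRatio * f (n + 1) =
      ((f n : ℝ) - f (n + 1) - f (n + 2)) -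
        (Real.goldenRatio - 1) * ((f (n + 1) : ℝ) - Real.goldenRatio * f (n + 2)) := by
    linear_combination (-(f (n + 2) : ℝ)) * hs
  rw [h3]
  refine (abs_sub _ _).trans ?_
  rw [abs_mul, abs_of_nonneg (by linarith [Real.one_lt_goldenRatio] :
    (0 : ℝ) ≤ Real.goldenRatio - 1)]
  refine add_le_add ?_ le_rfl
  rw [abs_le]
  constructor <;> linarith

theorem bound (f : ℕ → ℕ) (ε : ℕ) (h0 : ∀ n, f n ≤ f 0)
    (h : ∀ n, f n ≤ f (n + 1) + f (n + 2) + 8 * (n + 1) * ε ∧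
    f (n + 1) + f (n + 2) ≤ f n + 8 * (n + 1) * ε) (k : ℕ) : ∀ n : ℕ,
    |(f n : ℝ) - Real.goldenRatio * f (n + 1)| ≤ 8 * ε * (3 * n + 8) +
      (Real.goldenRatio - 1) ^ k * (3 * f 0) := by
  have hp := phi_le
  have h1p := Real.one_lt_goldenRatio
  induction k with
  | zero =>
    intro n
    have h1 : (f n : ℝ) ≤ f 0 := by exact_mod_cast h0 n
    have h2 : (f (n + 1) : ℝ) ≤ f 0 := by exact_mod_cast h0 (n + 1)
    have h3 : (0 : ℝ) ≤ f n := Nat.cast_nonneg _
    have h4 : (0 : ℝ) ≤ f (n + 1) := Nat.cast_nonneg _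
    have h5 : Real.goldenRatio * f (n + 1) ≤ 2 * f 0 := by nlinarith
    have h6 : 0 ≤ Real.goldenRatio * f (n + 1) := by positivity
    have h7 : (0 : ℝ) ≤ 8 * ε * (3 * n + 8) := by positivity
    rw [pow_zero, one_mul]
    have h8 : (0 : ℝ) ≤ f 0 := Nat.cast_nonneg _
    refine le_trans ?_ (le_add_of_nonneg_left h7)
    rw [abs_le]
    constructor <;> linarith
  | succ k ih =>
    intro n
    have h1 := step f ε h n
    have h2 := ih (n + 1)
    push_cast at h2
    have hg : 0 ≤ Real.goldenRatio - 1 := by linarith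
    have h3 := mul_le_mul_of_nonneg_left h2 hg
    have h4 : (Real.goldenRatio - 1) * (8 * ε * (3 * ((n : ℝ) + 1) + 8)) + 8 * (n + 1) * ε ≤
        8 * ε * (3 * n + 8) := by
      have hn : (0 : ℝ) ≤ n := Nat.cast_nonneg _
      have he : (0 : ℝ) ≤ ε := Nat.cast_nonneg _
      have h5 : (Real.goldenRatio - 1) * (3 * ((n : ℝ) + 1) + 8) + (n + 1) ≤ 3 * n + 8 := by
        have h6 : (Real.goldenRatio - 1) * (3 * ((n : ℝ) + 1) + 8) ≤
            0.62 * (3 * ((n : ℝ) + 1) + 8) :=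
          mul_le_mul_of_nonneg_right (by linarith) (by positivity)
        linarith
      have h7 := mul_le_mul_of_nonneg_left h5 (by positivity : (0 : ℝ) ≤ 8 * ε)
      linarith
    rw [pow_succ']
    calc |(f n : ℝ) - Real.goldenRatio * f (n + 1)| ≤ 8 * (n + 1) * ε +
          (Real.goldenRatio - 1) * |(f (n + 1) : ℝ) - Real.goldenRatio * f (n + 2)| := h1
      _ ≤ 8 * (n + 1) * ε + (Real.goldenRatio - 1) *
          (8 * ε * (3 * ((n : ℝ) + 1) + 8) + (Real.goldenRatio - 1) ^ k * (3 * f 0)) := by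
          refine add_le_add le_rfl ?_
          exact h3
      _ = ((Real.goldenRatio - 1) * (8 * ε * (3 * ((n : ℝ) + 1) + 8)) + 8 * (n + 1) * ε) +
          (Real.goldenRatio - 1) * (Real.goldenRatio - 1) ^ k * (3 * f 0) := by ring
      _ ≤ _ := add_le_add h4 le_rfl

end ModSEQ

open ModSEQ in
/-- Module SEQ. -/
theorem mSEQ : StmSEQ := by
  intro f ε h0 h
  have h1p := Real.one_lt_goldenRatio
  have hp := phi_le
  have h1 : ∀ k : ℕ, (f 0 : ℝ) - Real.goldenRatio * f 1 - 64 * ε ≤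
      (Real.goldenRatio - 1) ^ k * (3 * f 0) := by
    intro k
    have h2 := (le_abs_self _).trans (bound f ε h0 h k 0)
    norm_num at h2 ⊢
    linarith
  have h2 : Filter.Tendsto (fun k : ℕ => (Real.goldenRatio - 1) ^ k * (3 * (f 0 : ℝ)))
      Filter.atTop (nhds (0 * (3 * (f 0 : ℝ)))) :=
    (tendsto_pow_atTop_nhds_zero_of_lt_one (by linarith) (by linarith)).mul_const _
  have h3 := ge_of_tendsto' h2 h1
  rw [zero_mul] at h3
  linarith

end Pool.Agent.T6.H48.FM
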