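import Pool.Agent.T6.H48.FM.Defs
import Pool.Agent.T6.H48.FM.Basic

set_option autoImplicit false
set_option linter.unusedSectionVars false

namespace Pool.Agent.T6.H48.FM

open Matrix

namespace ModSYS

section aux

variable {F : Type*} [Field F] {K : Type} [Fintype K] [DecidableEq K]

theorem rsub (A B : Matrix K K F) : (A - B).rank ≤ A.rank + B.rank := by
  rw [sub_eq_add_neg]
  refine (rank_add_le _ _).trans ?_
  rw [rank_neg]

/-- triangle inequality -/
theorem rtri {A B C : Matrix K K F} {a b : ℕ} (h1 : (A - B).rank ≤ a) (h2 : (B - C).rank ≤ b) :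
    (A - C).rank ≤ a + b := by
  have : A - C = (A - B) + (B - C) := by abel
  rw [this]
  exact (rank_add_le _ _).trans (add_le_add h1 h2)

theorem rsymm {A B : Matrix K K F} {a : ℕ} (h1 : (A - B).rank ≤ a) : (B - A).rank ≤ a := by
  rw [← neg_sub, rank_neg]
  exact h1

theorem rmulL {A B : Matrix K K F} {a : ℕ} (M : Matrix K K F) (h1 : (A - B).rank ≤ a) :
    (M * A - M * B).rank ≤ a := by
  rw [← mul_sub]
  exact (Matrix.rank_mul_le_right _ _).trans h1

theorem rmulR {A B : Matrix K K F} {a : ℕ} (M : Matrix K K F) (h1 : (A - B).rank ≤ a) :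
    (A * M - B * M).rank ≤ a := by
  rw [← sub_mul]
  exact (Matrix.rank_mul_le_left _ _).trans h1

theorem radd {A B C D : Matrix K K F} {a b : ℕ} (h1 : (A - B).rank ≤ a) (h2 : (C - D).rank ≤ b) :
    ((A + C) - (B + D)).rank ≤ a + b := by
  have : (A + C) - (B + D) = (A - B) + (C - D) := by abel
  rw [this]
  exact (rank_add_le _ _).trans (add_le_add h1 h2)

theorem rle {A B : Matrix K K F} {a : ℕ} (h1 : (A - B).rank ≤ a) : A.rank ≤ B.rank + a := by
  have : A = B + (A - B) := by abel
  calc A.rank = (B + (A - B)).rank := by rw [← this]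
    _ ≤ B.rank + (A - B).rank := rank_add_le _ _
    _ ≤ _ := by omega

/-- approximate commutation with the powers -/
theorem rcomm {A S : Matrix K K F} {a : ℕ} (h : (A * S - S * A).rank ≤ a) (n : ℕ) :
    (A * S ^ n - S ^ n * A).rank ≤ n * a := by
  induction n with
  | zero => simp
  | succ n ih =>
    have h1 : (A * S ^ n * S - S ^ n * A * S).rank ≤ n * a := rmulR S ih
    have h2 : (S ^ n * (A * S) - S ^ n * (S * A)).rank ≤ a := rmulL (S ^ n) h
    have h3 : (A * S ^ n * S - S ^ n * (S * A)).rank ≤ n * a + a :=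
      rtri h1 (by rw [mul_assoc (S ^ n) A S]; exact h2)
    have e1 : A * S ^ (n + 1) = A * S ^ n * S := by rw [pow_succ, mul_assoc]
    have e2 : S ^ (n + 1) * A = S ^ n * (S * A) := by rw [pow_succ, mul_assoc]
    rw [e1, e2]
    calc _ ≤ n * a + a := h3
      _ = (n + 1) * a := by ring

end aux

end ModSYS

open ModSYS in
theorem sys_core {F : Type*} [Field F] (hT : StmTRI F) {K : Type} [Fintype K] [DecidableEq K]
    (S al be a b1 c ga de T Z Z' p q u t : Matrix K K F) (ε : ℕ)
    (h0 : (Z - al * S).rank ≤ ε) (h1 : (Z - S * al).rank ≤ ε) (h2 : (Z' - be * S).rank ≤ ε)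
    (h3 : (Z' - S * be).rank ≤ ε) (h4 : (al - S * a).rank ≤ ε) (h5 : (be - S * b1).rank ≤ ε)
    (h6 : (b1 - S * c).rank ≤ ε) (h7 : (S - al * ga).rank ≤ ε) (h8 : (0 - be * ga).rank ≤ ε)
    (h9 : (0 - al * de).rank ≤ ε) (h10 : (T - be * de).rank ≤ ε) (h11 : (T - S * S).rank ≤ ε)
    (h12 : (u - p * al).rank ≤ ε) (h13 : (t - q * be).rank ≤ ε) (hl : (u + t - 1).rank ≤ ε)
    (n : ℕ) : (S ^ n).rank ≤ (S ^ (n + 1)).rank + (S ^ (n + 2)).rank + 8 * (n + 1) * ε ∧
    (S ^ (n + 1)).rank + (S ^ (n + 2)).rank ≤ (S ^ n).rank + 8 * (n + 1) * ε := by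
  have ha : (al * S - S * al).rank ≤ 2 * ε := by
    have := rtri (rsymm h0) h1
    omega
  have hb : (be * S - S * be).rank ≤ 2 * ε := by
    have := rtri (rsymm h2) h3
    omega
  have hbc : (be - S * (S * c)).rank ≤ 2 * ε := by
    have := rtri h5 (rmulL S h6)
    omega
  have hbd : (be * de - S * S).rank ≤ 2 * ε := by
    have := rtri (rsymm h10) h11
    omega
  have han := rcomm ha n
  have hbn := rcomm hb n
  have h1pq : (1 - (p * al + q * be)).rank ≤ 3 * ε := by
    have k1 : (1 - (u + t)).rank ≤ ε := by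
      rw [← neg_sub, rank_neg]
      exact hl
    have := rtri k1 (radd h12 h13)
    omega
  refine ⟨?_, ?_⟩
  · -- `p α S^n ≈ p S^(n+1) a`
    have k1 : (p * (al * S ^ n) - p * (S ^ n * al)).rank ≤ n * (2 * ε) := rmulL p han
    have k2 : (p * (S ^ n * al) - p * (S ^ n * (S * a))).rank ≤ ε := rmulL p (rmulL (S ^ n) h4)
    have k3 := rtri k1 k2
    have k4 : (q * (be * S ^ n) - q * (S ^ n * be)).rank ≤ n * (2 * ε) := rmulL q hbn
    have k5 : (q * (S ^ n * be) - q * (S ^ n * (S * (S * c)))).rank ≤ 2 * ε :=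
      rmulL q (rmulL (S ^ n) hbc)
    have k6 := rtri k4 k5
    have k7 := radd k3 k6
    have k8 : (1 * S ^ n - (p * al + q * be) * S ^ n).rank ≤ 3 * ε := rmulR (S ^ n) h1pq
    rw [one_mul, add_mul, mul_assoc, mul_assoc] at k8
    have k9 := rtri k8 k7
    have k10 := rle k9
    have k11 : (p * (S ^ n * (S * a)) + q * (S ^ n * (S * (S * c)))).rank ≤
        (S ^ (n + 1)).rank + (S ^ (n + 2)).rank := by
      refine (rank_add_le _ _).trans (add_le_add ?_ ?_)
      · have : S ^ n * (S * a) = S ^ (n + 1) * a := by rw [pow_succ, mul_assoc]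
        rw [this]
        exact (Matrix.rank_mul_le_right _ _).trans (Matrix.rank_mul_le_left _ _)
      · have : S ^ n * (S * (S * c)) = S ^ (n + 2) * c := by
          rw [pow_succ, pow_succ, mul_assoc, mul_assoc]
        rw [this]
        exact (Matrix.rank_mul_le_right _ _).trans (Matrix.rank_mul_le_left _ _)
    have k12 : 3 * ε + (n * (2 * ε) + ε + (n * (2 * ε) + 2 * ε)) ≤ 8 * (n + 1) * ε := by
      calc 3 * ε + (n * (2 * ε) + ε + (n * (2 * ε) + 2 * ε)) = (4 * n + 6) * ε := by ring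
        _ ≤ 8 * (n + 1) * ε := Nat.mul_le_mul_right ε (by omega)
    exact k10.trans (add_le_add k11 k12)
  · -- the block matrix
    have kA : (S ^ (n + 1) - al * S ^ n * ga).rank ≤ (2 * n + 1) * ε := by
      have k1 : (S ^ n * al * ga - al * S ^ n * ga).rank ≤ n * (2 * ε) := rsymm (rmulR ga han)
      have k2 : (S ^ n * S - S ^ n * (al * ga)).rank ≤ ε := rmulL (S ^ n) h7
      rw [← mul_assoc, ← pow_succ] at k2
      have := rtri k2 k1
      calc _ ≤ _ := this
        _ = _ := by ring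
    have kB : (0 - al * S ^ n * de).rank ≤ (2 * n + 1) * ε := by
      have k1 : (S ^ n * al * de - al * S ^ n * de).rank ≤ n * (2 * ε) := rsymm (rmulR de han)
      have k2 : (S ^ n * 0 - S ^ n * (al * de)).rank ≤ ε := rmulL (S ^ n) h9
      rw [← mul_assoc, mul_zero] at k2
      have := rtri k2 k1
      calc _ ≤ _ := this
        _ = _ := by ring
    have kC : (0 - be * S ^ n * ga).rank ≤ (2 * n + 1) * ε := by
      have k1 : (S ^ n * be * ga - be * S ^ n * ga).rank ≤ n * (2 * ε) := rsymm (rmulR ga hbn)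
      have k2 : (S ^ n * 0 - S ^ n * (be * ga)).rank ≤ ε := rmulL (S ^ n) h8
      rw [← mul_assoc, mul_zero] at k2
      have := rtri k2 k1
      calc _ ≤ _ := this
        _ = _ := by ring
    have kD : (S ^ (n + 2) - be * S ^ n * de).rank ≤ (2 * n + 2) * ε := by
      have k1 : (S ^ n * be * de - be * S ^ n * de).rank ≤ n * (2 * ε) := rsymm (rmulR de hbn)
      have k2 : (S ^ n * (S * S) - S ^ n * (be * de)).rank ≤ 2 * ε := rmulL (S ^ n) (rsymm hbd)
      rw [← mul_assoc (S ^ n) be de] at k2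
      have e : S ^ n * (S * S) = S ^ (n + 2) := by rw [pow_succ, pow_succ, mul_assoc]
      rw [e] at k2
      have := rtri k2 k1
      calc _ ≤ _ := this
        _ = _ := by ring
    have hQ : (fromBlocks (al * S ^ n * ga) (al * S ^ n * de) (be * S ^ n * ga)
        (be * S ^ n * de)).rank ≤ (S ^ n).rank := by
      have : fromBlocks (al * S ^ n * ga) (al * S ^ n * de) (be * S ^ n * ga) (be * S ^ n * de) =
          fromRows al be * S ^ n * fromCols ga de := by
        rw [fromRows_mul, fromRows_mul_fromCols]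
      rw [this]
      exact (Matrix.rank_mul_le_left _ _).trans (Matrix.rank_mul_le_right _ _)
    have hdiff : (fromBlocks (S ^ (n + 1)) 0 0 (S ^ (n + 2)) -
        fromBlocks (al * S ^ n * ga) (al * S ^ n * de) (be * S ^ n * ga)
          (be * S ^ n * de)).rank ≤ (8 * n + 5) * ε := by
      have e : fromBlocks (S ^ (n + 1)) 0 0 (S ^ (n + 2)) -
        fromBlocks (al * S ^ n * ga) (al * S ^ n * de) (be * S ^ n * ga) (be * S ^ n * de) =
          fromBlocks (S ^ (n + 1) - al * S ^ n * ga) (0 - al * S ^ n * de)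
            (0 - be * S ^ n * ga) (S ^ (n + 2) - be * S ^ n * de) := by
        ext i j
        rcases i with i | i <;> rcases j with j | j <;> simp
      rw [e]
      refine (rank_blocks_le _ _ _ _).trans ?_
      have : (8 * n + 5) * ε = (2 * n + 1) * ε + (2 * n + 1) * ε + (2 * n + 1) * ε +
          (2 * n + 2) * ε := by ring
      omega
    have h9' := hT.1 K K K K (S ^ (n + 1)) 0 (S ^ (n + 2))
    have h10' := rle hdiff
    have h11' : (8 * n + 5) * ε ≤ 8 * (n + 1) * ε := Nat.mul_le_mul_right ε (by omega)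
    exact h9'.trans (h10'.trans (add_le_add hQ h11'))

theorem mSYS (F : Type*) [Field F] (hT : StmTRI F) : StmSYS F := by
  intro K _ _ X ε hO he hl n
  have h8 := he 8
  have h9 := he 9
  have e8 : (sysP 8).1 = 15 := rfl
  have e9 : (sysP 9).1 = 15 := rfl
  rw [e8, hO] at h8
  rw [e9, hO] at h9
  exact sys_core hT (X 0) (X 1) (X 2) (X 3) (X 4) (X 5) (X 6) (X 7) (X 8) (X 9) (X 10) (X 11)
    (X 12) (X 13) (X 14) ε (he 0) (he 1) (he 2) (he 3) (he 4) (he 5) (he 6) (he 7) h8 h9 (he 10)
    (he 11) (he 12) (he 13) hl n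

end Pool.Agent.T6.H48.FM
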