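import Pool.Agent.T6.H48.FM.Defs

set_option autoImplicit false

/-! Project FM, module TRI. -/

namespace Pool.Agent.T6.H48.FM.ModTRI

open Matrix

/-- Extension by zero. -/
def ez (F : Type*) [Field F] (I₁ I₂ : Type) : (I₁ → F) →ₗ[F] (I₁ ⊕ I₂ → F) where
  toFun x := Sum.elim x 0
  map_add' x y := by ext i; cases i <;> simp
  map_smul' c x := by ext i; cases i <;> simp

theorem tri1 (F : Type*) [Field F] (I₁ I₂ J₁ J₂ : Type) [Fintype I₁] [Fintype I₂] [Fintype J₁]
    [Fintype J₂] (A : Matrix I₁ J₁ F) (B : Matrix I₁ J₂ F) (D : Matrix I₂ J₂ F) :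
    A.rank + D.rank ≤ (fromBlocks A B 0 D).rank := by
  set M : Matrix (I₁ ⊕ I₂) (J₁ ⊕ J₂) F := fromBlocks A B 0 D with hM
  set W : Submodule F (I₁ ⊕ I₂ → F) := LinearMap.range M.mulVecLin with hW
  let p : (I₁ ⊕ I₂ → F) →ₗ[F] (I₂ → F) := LinearMap.funLeft F F Sum.inr
  let f : W →ₗ[F] (I₂ → F) := p.comp W.subtype
  have h1 : Module.finrank F (LinearMap.range D.mulVecLin) ≤
      Module.finrank F (LinearMap.range f) := by
    apply Submodule.finrank_mono
    rintro _ ⟨y, rfl⟩
    refine ⟨⟨M.mulVec (Sum.elim 0 y), ⟨_, rfl⟩⟩, ?_⟩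
    ext x
    simp [f, p, hM, fromBlocks_mulVec, LinearMap.funLeft_apply]
  have hmem : ∀ w : LinearMap.range A.mulVecLin, ez F I₁ I₂ (w : I₁ → F) ∈ W := by
    rintro ⟨_, ⟨x, rfl⟩⟩
    refine ⟨Sum.elim x 0, ?_⟩
    rw [mulVecLin_apply, hM, fromBlocks_mulVec]
    ext i
    cases i <;> simp [ez]
  let g1 : LinearMap.range A.mulVecLin →ₗ[F] W :=
    LinearMap.codRestrict W ((ez F I₁ I₂).comp (LinearMap.range A.mulVecLin).subtype) hmem
  have hk : ∀ w, g1 w ∈ LinearMap.ker f := by
    intro w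
    rw [LinearMap.mem_ker]
    ext x
    simp [f, p, g1, ez, LinearMap.funLeft_apply]
  let g : LinearMap.range A.mulVecLin →ₗ[F] LinearMap.ker f := LinearMap.codRestrict _ g1 hk
  have hg : Function.Injective g := by
    intro a b hab
    have h2 : ez F I₁ I₂ (a : I₁ → F) = ez F I₁ I₂ (b : I₁ → F) :=
      congrArg (fun z : LinearMap.ker f => ((z : W) : I₁ ⊕ I₂ → F)) hab
    apply Subtype.ext
    ext i
    have := congrFun h2 (Sum.inl i)
    simpa [ez] using this
  have h2 : Module.finrank F (LinearMap.range A.mulVecLin) ≤ Module.finrank F (LinearMap.ker f) :=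
    LinearMap.finrank_le_finrank_of_injective hg
  have h3 := LinearMap.finrank_range_add_finrank_ker f
  have h4 : M.rank = Module.finrank F W := rfl
  have h5 : A.rank = Module.finrank F (LinearMap.range A.mulVecLin) := rfl
  have h6 : D.rank = Module.finrank F (LinearMap.range D.mulVecLin) := rfl
  omega

theorem tri2 (F : Type*) [Field F] (ι I J : Type) [Fintype ι] [DecidableEq ι] [Fintype I]
    [Fintype J] (G : Matrix (ι × I) (ι × J) F)
    (hG : ∀ i j, i ≠ j → ∀ x y, G (i, x) (j, y) = 0) :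
    G.rank = ∑ i, (Matrix.of fun x y => G (i, x) (i, y)).rank := by
  let Gi : ι → Matrix I J F := fun i => Matrix.of fun x y => G (i, x) (i, y)
  let Φ : (∀ i, LinearMap.range (Gi i).mulVecLin) →ₗ[F] (ι × I → F) :=
    { toFun := fun w p => (w p.1 : I → F) p.2
      map_add' := by intro a b; rfl
      map_smul' := by intro a b; rfl }
  have hmul : ∀ (v : ι × J → F) (i : ι) (x : I),
      G.mulVec v (i, x) = (Gi i).mulVec (fun y => v (i, y)) x := by
    intro v i x
    simp only [mulVec, dotProduct, Gi, of_apply]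
    rw [Fintype.sum_prod_type, Finset.sum_eq_single i]
    · intro j _ hj
      apply Finset.sum_eq_zero
      intro y _
      rw [hG i j (Ne.symm hj), zero_mul]
    · intro h
      exact absurd (Finset.mem_univ i) h
  have hinj : Function.Injective Φ := by
    intro a b hab
    funext i
    apply Subtype.ext
    ext x
    exact congrFun hab (i, x)
  have hr : LinearMap.range Φ = LinearMap.range G.mulVecLin := by
    apply le_antisymm
    · rintro _ ⟨w, rfl⟩
      choose v hv using fun i => (w i).2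
      refine ⟨fun p => v p.1 p.2, ?_⟩
      ext ⟨i, x⟩
      rw [mulVecLin_apply, hmul]
      have := congrFun (hv i) x
      rw [mulVecLin_apply] at this
      exact this
    · rintro _ ⟨v, rfl⟩
      refine ⟨fun i => ⟨(Gi i).mulVecLin (fun y => v (i, y)), ⟨_, rfl⟩⟩, ?_⟩
      ext ⟨i, x⟩
      rw [mulVecLin_apply, hmul]
      rfl
  have h1 : G.rank = Module.finrank F (LinearMap.range Φ) := by rw [hr]; rfl
  rw [h1, LinearMap.finrank_range_of_inj hinj, Module.finrank_pi_fintype]
  rfl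

end Pool.Agent.T6.H48.FM.ModTRI

namespace Pool.Agent.T6.H48.FM

theorem mTRI (F : Type*) [Field F] : StmTRI F :=
  ⟨fun I₁ I₂ J₁ J₂ _ _ _ _ A B D => ModTRI.tri1 F I₁ I₂ J₁ J₂ A B D,
    fun ι I J _ _ _ _ G hG => ModTRI.tri2 F ι I J G hG⟩

end Pool.Agent.T6.H48.FM
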