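import Pool.Agent.T6.H48.FM.Defs

set_option autoImplicit false

/-! Project FM, module UPP. -/

namespace Pool.Agent.T6.H48.FM.ModUPP

open Matrix

variable {F : Type*} [Field F]

abbrev R0 : Type := Row (Fin 16) (Fin 14)
abbrev C0' : Type := Col (Fin 16)

variable {L : ℕ} {K : Type} [Fintype K] [DecidableEq K]

/-- the block `B` -/
def bB (B0 : Matrix (Fin 3 × K) (Col (Fin 16) × K) F) :
    Matrix ((Fin L × Fin 3) × K) ((Fin L × Col (Fin 16)) × K) F :=
  of fun p q => if p.1.1 = q.1.1 then B0 (p.1.2, p.2) (q.1.2, q.2) else 0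

/-- the block `C` -/
def bC (C0 : Matrix (Row (Fin 16) (Fin 14) × K) (Fin 3 × K) F) :
    Matrix (((Fin L × Row (Fin 16) (Fin 14)) ⊕ Unit) × K) ((Fin L × Fin 3) × K) F :=
  of fun p q => match p.1 with
    | Sum.inl x => if x.1 = q.1.1 then C0 (x.2, p.2) (q.1.2, q.2) else 0
    | Sum.inr _ => if q.1.2 = 0 ∧ p.2 = q.2 then 1 else 0

/-- the block `D` -/
def bD (B0 : Matrix (Fin 3 × K) (Col (Fin 16) × K) F)
    (D0 : Matrix (Row (Fin 16) (Fin 14) × K) (Col (Fin 16) × K) F) :
    Matrix (((Fin L × Row (Fin 16) (Fin 14)) ⊕ Unit) × K) ((Fin L × Col (Fin 16)) × K) F :=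
  of fun p q => match p.1 with
    | Sum.inl x => if x.1 = q.1.1 then D0 (x.2, p.2) (q.1.2, q.2) else 0
    | Sum.inr _ => if q.1.2 = Sum.inl 0 then 0 else B0 (0, p.2) (q.1.2, q.2)

variable (B0 : Matrix (Fin 3 × K) (Col (Fin 16) × K) F)
  (C0 : Matrix (Row (Fin 16) (Fin 14) × K) (Fin 3 × K) F)
  (D0 : Matrix (Row (Fin 16) (Fin 14) × K) (Col (Fin 16) × K) F)

/-- the completion -/
def bM : Matrix (BI L × K) (BJ L × K) F :=
  (fromBlocks 1 (bB B0) (bC C0) (bD B0 D0)).submatrix
    (Equiv.sumProdDistrib (Fin L × Fin 3) ((Fin L × Row (Fin 16) (Fin 14)) ⊕ Unit) K)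
    (Equiv.sumProdDistrib (Fin L × Fin 3) (Fin L × Col (Fin 16)) K)

omit [Fintype K] in
theorem compl (hB : IsCompl (gB F 15) B0) (hC : IsCompl (gC F) C0)
    (hD : IsCompl (gD F sysP 13 14) D0) : IsCompl (big F L) (bM (L := L) B0 C0 D0) := by
  intro i j a h s t
  rcases i with x | x | x
  · rcases j with y | y
    · simp only [big, Option.some.injEq] at h
      subst h
      simp only [bM, submatrix_apply, Equiv.sumProdDistrib_apply_left, fromBlocks_apply₁₁]
      rw [one_apply]
      by_cases hxy : x = y <;> by_cases hst : s = t <;> simp [hxy, hst]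
    · simp only [big] at h
      simp only [bM, submatrix_apply, Equiv.sumProdDistrib_apply_left,
        Equiv.sumProdDistrib_apply_right, fromBlocks_apply₁₂, bB, of_apply]
      by_cases hxy : x.1 = y.1
      · rw [if_pos hxy] at h ⊢
        exact hB _ _ _ h s t
      · rw [if_neg hxy] at h ⊢
        simp only [Option.some.injEq] at h
        subst h
        simp
  · rcases j with y | y
    · simp only [big] at h
      simp only [bM, submatrix_apply, Equiv.sumProdDistrib_apply_left,
        Equiv.sumProdDistrib_apply_right, fromBlocks_apply₂₁, bC, of_apply]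
      by_cases hxy : x.1 = y.1
      · rw [if_pos hxy] at h ⊢
        exact hC _ _ _ h s t
      · rw [if_neg hxy] at h ⊢
        simp only [Option.some.injEq] at h
        subst h
        simp
    · simp only [big] at h
      simp only [bM, submatrix_apply, Equiv.sumProdDistrib_apply_right, fromBlocks_apply₂₂, bD,
        of_apply]
      by_cases hxy : x.1 = y.1
      · rw [if_pos hxy] at h ⊢
        exact hD _ _ _ h s t
      · rw [if_neg hxy] at h ⊢
        simp only [Option.some.injEq] at h
        subst h
        simp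
  · rcases j with y | y
    · simp only [big, Option.some.injEq] at h
      subst h
      simp only [bM, submatrix_apply, Equiv.sumProdDistrib_apply_left,
        Equiv.sumProdDistrib_apply_right, fromBlocks_apply₂₁, bC, of_apply]
      by_cases hy : y.2 = 0 <;> by_cases hst : s = t <;> simp [hy, hst]
    · simp only [big] at h
      simp only [bM, submatrix_apply, Equiv.sumProdDistrib_apply_right, fromBlocks_apply₂₂, bD,
        of_apply]
      by_cases hy : y.2 = Sum.inl 0
      · rw [if_pos hy] at h ⊢
        simp only [Option.some.injEq] at h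
        subst h
        simp
      · rw [if_neg hy] at h
        exact absurd h (by simp)

theorem G1 (x : Fin L × Row (Fin 16) (Fin 14)) (s : K) (q : (Fin L × Col (Fin 16)) × K) :
    (bD (L := L) B0 D0 - bC (L := L) C0 * bB (L := L) B0) (Sum.inl x, s) q =
      if x.1 = q.1.1 then (D0 - C0 * B0) (x.2, s) (q.1.2, q.2) else 0 := by
  rw [Matrix.sub_apply, mul_apply, Fintype.sum_prod_type, Fintype.sum_prod_type,
    Finset.sum_eq_single x.1]
  · by_cases h : x.1 = q.1.1
    · simp only [bD, bC, bB, of_apply, h, if_true, Matrix.sub_apply, mul_apply]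
      rw [Fintype.sum_prod_type]
    · simp only [bD, bC, bB, of_apply, h, if_false, mul_zero, Finset.sum_const_zero, sub_zero]
  · intro l _ hl
    apply Finset.sum_eq_zero
    intro i _
    apply Finset.sum_eq_zero
    intro t _
    simp only [bC, of_apply, if_neg (Ne.symm hl), zero_mul]
  · intro h
    exact absurd (Finset.mem_univ _) h

theorem G2 (s : K) (q : (Fin L × Col (Fin 16)) × K) :
    (bD (L := L) B0 D0 - bC (L := L) C0 * bB (L := L) B0) (Sum.inr (), s) q =
      if q.1.2 = Sum.inl 0 then - blk B0 0 s q.2 else 0 := by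
  have h1 : (bC (L := L) C0 * bB (L := L) B0) (Sum.inr (), s) q = B0 (0, s) (q.1.2, q.2) := by
    rw [mul_apply, Fintype.sum_prod_type, Fintype.sum_prod_type, Finset.sum_eq_single q.1.1,
      Finset.sum_eq_single 0, Finset.sum_eq_single s]
    · simp only [bC, bB, of_apply, and_self, if_true, one_mul]
    · intro t _ ht
      simp only [bC, of_apply, (Ne.symm ht), and_false, if_false, zero_mul]
    · intro h; exact absurd (Finset.mem_univ _) h
    · intro i _ hi
      apply Finset.sum_eq_zero
      intro t _
      simp only [bC, of_apply, hi, false_and, if_false, zero_mul]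
    · intro h; exact absurd (Finset.mem_univ _) h
    · intro l _ hl
      apply Finset.sum_eq_zero
      intro i _
      apply Finset.sum_eq_zero
      intro t _
      simp only [bB, of_apply, if_neg hl, mul_zero]
    · intro h; exact absurd (Finset.mem_univ _) h
  rw [Matrix.sub_apply, h1]
  by_cases h : q.1.2 = Sum.inl 0
  · simp only [bD, of_apply, h, if_true, blk, zero_sub]
  · simp only [bD, of_apply, h, if_false, sub_self]

/-- the block diagonal matrix -/
def gd (G0 : Matrix (Row (Fin 16) (Fin 14) × K) (Col (Fin 16) × K) F) :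
    Matrix (Fin L × (Row (Fin 16) (Fin 14) × K)) (Fin L × (Col (Fin 16) × K)) F :=
  of fun p q => if p.1 = q.1 then G0 p.2 q.2 else 0

theorem gd_rank (hT : StmTRI F)
    (G0 : Matrix (Row (Fin 16) (Fin 14) × K) (Col (Fin 16) × K) F) :
    (gd (L := L) G0).rank = L * G0.rank := by
  rw [hT.2 (Fin L) (Row (Fin 16) (Fin 14) × K) (Col (Fin 16) × K) (gd G0)]
  · have : ∀ i : Fin L, (of fun x y => gd (L := L) G0 (i, x) (i, y)) = G0 := by
      intro i
      ext x y
      simp [gd]
    simp only [this, Finset.sum_const, Finset.card_univ, Fintype.card_fin, smul_eq_mul]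
  · intro i j hij x y
    simp [gd, hij]

theorem rank_add_le' {I J : Type} [Fintype J] (A B : Matrix I J F) :
    (A + B).rank ≤ A.rank + B.rank := by
  have h1 : LinearMap.range (A + B).mulVecLin ≤
      LinearMap.range A.mulVecLin ⊔ LinearMap.range B.mulVecLin := by
    rintro _ ⟨x, rfl⟩
    rw [mulVecLin_add, LinearMap.add_apply]
    exact Submodule.add_mem_sup ⟨x, rfl⟩ ⟨x, rfl⟩
  exact (Submodule.finrank_mono h1).trans (Submodule.finrank_add_le_finrank_add_finrank _ _)

theorem rank_G (hT : StmTRI F) :
    (bD (L := L) B0 D0 - bC (L := L) C0 * bB (L := L) B0).rank ≤ L * (D0 - C0 * B0).rank + (blk B0 0).rank := by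
  let E : Matrix (((Fin L × Row (Fin 16) (Fin 14)) ⊕ Unit) × K)
      (Fin L × (Row (Fin 16) (Fin 14) × K)) F :=
    of fun p q => match p.1 with
      | Sum.inl x => if (x.1, (x.2, p.2)) = q then 1 else 0
      | Sum.inr _ => 0
  let E1 : Matrix (((Fin L × Row (Fin 16) (Fin 14)) ⊕ Unit) × K) K F :=
    of fun p s => match p.1 with
      | Sum.inl _ => 0
      | Sum.inr _ => if p.2 = s then -1 else 0
  let E2 : Matrix K ((Fin L × Col (Fin 16)) × K) F :=
    of fun r q => if q.1.2 = Sum.inl 0 then (if r = q.2 then 1 else 0) else 0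
  let e2 : (Fin L × Col (Fin 16)) × K ≃ Fin L × (Col (Fin 16) × K) := Equiv.prodAssoc _ _ _
  have key : bD (L := L) B0 D0 - bC (L := L) C0 * bB (L := L) B0 =
      E * (gd (D0 - C0 * B0)).submatrix id e2 + E1 * (blk B0 0 * E2) := by
    ext p q
    obtain ⟨p1, s⟩ := p
    rw [Matrix.add_apply]
    rcases p1 with x | ⟨⟩
    · rw [G1]
      have h1 : (E * (gd (D0 - C0 * B0)).submatrix id e2) (Sum.inl x, s) q =
          (gd (D0 - C0 * B0)).submatrix id e2 (x.1, (x.2, s)) q := by
        rw [mul_apply, Finset.sum_eq_single (x.1, (x.2, s))]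
        · simp only [E, of_apply, if_true, one_mul]
        · intro r _ hr
          simp only [E, of_apply, if_neg (Ne.symm hr), zero_mul]
        · intro h; exact absurd (Finset.mem_univ _) h
      have h2 : (E1 * (blk B0 0 * E2)) (Sum.inl x, s) q = 0 := by
        rw [mul_apply]
        apply Finset.sum_eq_zero
        intro r _
        simp only [E1, of_apply, zero_mul]
      rw [h1, h2, add_zero]
      rfl
    · rw [G2]
      have h1 : (E * (gd (D0 - C0 * B0)).submatrix id e2) (Sum.inr (), s) q = 0 := by
        rw [mul_apply]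
        apply Finset.sum_eq_zero
        intro r _
        simp only [E, of_apply, zero_mul]
      have h2 : (E1 * (blk B0 0 * E2)) (Sum.inr (), s) q = -((blk B0 0 * E2) s q) := by
        rw [mul_apply, Finset.sum_eq_single s]
        · simp only [E1, of_apply, if_true, neg_mul, one_mul]
        · intro r _ hr
          simp only [E1, of_apply, if_neg (Ne.symm hr), zero_mul]
        · intro h; exact absurd (Finset.mem_univ _) h
      have h3 : (blk B0 0 * E2) s q = if q.1.2 = Sum.inl 0 then blk B0 0 s q.2 else 0 := by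
        rw [mul_apply]
        by_cases h : q.1.2 = Sum.inl 0
        · rw [if_pos h, Finset.sum_eq_single q.2]
          · simp only [E2, of_apply, if_pos h, if_true, mul_one]
          · intro r _ hr
            simp only [E2, of_apply, if_pos h, if_neg hr, mul_zero]
          · intro h; exact absurd (Finset.mem_univ _) h
        · rw [if_neg h]
          apply Finset.sum_eq_zero
          intro r _
          simp only [E2, of_apply, if_neg h, mul_zero]
      rw [h1, h2, h3, zero_add]
      by_cases h : q.1.2 = Sum.inl 0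
      · rw [if_pos h, if_pos h]
      · rw [if_neg h, if_neg h, neg_zero]
  rw [key]
  refine (rank_add_le' _ _).trans (add_le_add ?_ ?_)
  · refine (rank_mul_le_right _ _).trans ?_
    have h5 : ((gd (L := L) (D0 - C0 * B0)).submatrix id e2).rank =
        (gd (L := L) (D0 - C0 * B0)).rank := rank_submatrix _ (Equiv.refl _) e2
    rw [h5, gd_rank hT]
  · exact (rank_mul_le_right _ _).trans (rank_mul_le_left _ _)

end Pool.Agent.T6.H48.FM.ModUPP

namespace Pool.Agent.T6.H48.FM

open Matrix in
theorem mUPP (F : Type*) [Field F] (hS : StmSCH F) (hT : StmTRI F) (hG : StmGUP F) :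
    StmUPP F := by
  intro L K _ _ X hX
  obtain ⟨B0, C0, D0, hB, hC, hD, hv, hr⟩ :=
    hG (Fin 16) (Fin 14) K 15 13 14 sysP X hX
  refine ⟨ModUPP.bM B0 C0 D0, ModUPP.compl B0 C0 D0 hB hC hD, ?_⟩
  have h1 : (ModUPP.bM (L := L) B0 C0 D0).rank =
      (fromBlocks 1 (ModUPP.bB (L := L) B0) (ModUPP.bC C0) (ModUPP.bD B0 D0)).rank := by
    unfold ModUPP.bM
    exact rank_submatrix _ _ _
  rw [h1, hS, Fintype.card_prod, Fintype.card_prod, Fintype.card_fin, Fintype.card_fin]
  have h2 := ModUPP.rank_G (L := L) B0 C0 D0 hT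
  rw [hv 0] at h2
  have h3 := Nat.mul_le_mul_left L hr
  have h4 : L * 3 * Fintype.card K = 3 * L * Fintype.card K := by ring
  rw [h4, add_assoc]
  apply Nat.add_le_add_left
  refine h2.trans ?_
  rw [add_comm]
  exact Nat.add_le_add_left h3 _

end Pool.Agent.T6.H48.FM
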